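import Pool.Agent.Helper38.WY.Goals4

/-!
# Project WY, part 6: the algebraic side for `χ₀ ≡ ω`, `p` odd

`χ₀` is congruent to the cyclotomic character `ω` modulo the maximal ideal (`χ₀ = 1` if `K` contains the `p`-th roots of
unity); `M = K(ε)`, `M₂ = M J`, `δ ε = ε^i`, `P = X - i`. The Kummer generator `α` is always an element of the Selmer group
over `M₂` (it comes from the torsion unit `ε`). The criterion is: every element of the Selmer group (in `Mˣ`) is a power of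
`α` up to `p`-th powers of `M₂`. Every statement is a `def ... : Prop` with its complete proof in the docstring.
-/

set_option autoImplicit false

namespace Pool.Agent.Helper38.WY

open NumberField Polynomial Module IsDedekindDomain TensorProduct
open Pool.Agent.Helper51.SigLeo
open Pool.Agent.Helper51.RP Pool.Agent.Helper42.RD Pool.Agent.Helper11.LE Pool.Agent.Helper11.PP
open Pool.Agent.Helper42.PW
open Pool.Agent.Helper77.RL (Sqr SplitAt NoTor)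
open Pool.Agent.Helper38.FD (Chr CutsOut LeopoldtFor)

/-- **O_LA** (linear algebra; compare `RP.S_LA` (proved, `Pool/Agent/Helper16/RP/LA.lean`) and `LE.L_LA`). `A` is a finitely
generated abelian group with commuting endomorphisms `δ`, `σ`, `δ^m = 1`, `γ = σ^(p^n)`, `1 + γ + ... + γ^(p-1) = 0`. Write `γ` for `σ^(p^n)`.

PROOF. `p A ⊆ (γ-1)A` (as in `S_LA`). (a) In `ℤ[X]`: `(X-1)^(p^n) = (X^(p^n) - 1) + p g(X)` (`p` odd), so `(σ-1)^(p^n) A ⊆ (γ-1)A`. (b) `∏_(0<j<p) (1 - X^j) = p` modulo `1 + X + ... + X^(p-1)`, so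
`p = (γ-1)^(p-1) h(γ)` on `A` and on `ℤ_p ⊗ A`, and by (a), since `p - 1 ≥ 2`, `(σ-1)^(p^n) = (γ-1)(1 + (γ-1) g₂(σ))`, `g₂ ∈ ℤ[X]`. Let `A' = A/torsion = ℤ^r` with a section `s : A' → A`
(a homomorphism); `k ⊗ A = k^r`; `δ`, `σ` act on `A'` by integer matrices `D`, `Σ`, `Γ = Σ^(p^n)`, `f j` factors through a row vector `φ_j ∈ ℚ_p^r`. `W = {w ∈ ℚ_p^r : D w = ζ w, φ_j Σ^l w = 0 for all j, l}` is not zero (the
linear system has the solution `z ≠ 0` over `k`), `Σ W ⊆ W`. `W₀ = W ∩ ℤ_p^r`. *There is `w₀ ∈ W₀` with `w₀ ∉ (Σ-1)ℤ_p^r`*: `Σ - 1` is injective on `ℚ_p^r` (`Σ v = v` gives `Γ v = v`, `p v = 0`), so bijective on `W`; if the claim fails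
`W₀ = (Σ-1)^N W₀` for all `N`, and `(Σ-1)^(p^n (p-1)) ∈ p ℤ[Σ]` (`≡ (Γ-1)^(p-1) ≡ 1 + Γ + ... + Γ^(p-1) mod p`), so `W₀ = 0`, a contradiction. Let `w = (Σ-1)^(p^n-1) w₀ ∈ W₀`. *`w ∉ (Γ-1)ℤ_p^r`*: if `w = (Γ-1)v` then by (b) and the injectivity of
`Σ - 1`: `(Σ-1)^(p^n) v (1 + ...)`, precisely `(Σ-1)^(p^n-1) (1 + (Γ-1)g₂(Σ)) w₀ = (1 + (Γ-1) g₂(Σ)) (Γ-1) v = (Σ-1)^(p^n) v`, so `(1 + (Γ-1)g₂(Σ)) w₀ = (Σ-1) v`, and `Γ - 1 = (Σ-1)(1 + Σ + ...)`, so `w₀ ∈ (Σ-1)ℤ_p^r`, a contradiction.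
Let `p^c ≥ ‖φ_j Σ^l‖` for all `j`, `l` (`Σ^(p^(n+1)) = 1`). For `N ∈ ℕ` let `t_N ∈ ℤ^r`, `t_N ≡ w₀ mod p^(N+c+1)`, `b_N = s(t_N)`; `e_N = ∑_(l<m) c_(N,l) X^l ∈ ℤ[X]` with `c_(N,l) ≡ ζ^(-l)/m mod p^(N+c+1)`; `u N = e_N(δ) (σ-1)^(p^n-1) b_N`. Its image in
`ℤ_p^r` is congruent to `(1/m) ∑_l ζ^(-l) D^l w = w` modulo `p^(N+c+1)`, which gives the estimate. *(1)* `e_N ≡ e_0`, `b_N ≡ b_0` modulo `p`, so `u N - u 0 ∈ p A`. *(2)* If `u 0 = γ b - b + t`, `t` torsion, then `w ∈ (Γ-1)ℤ_p^r + p ℤ_p^r = (Γ-1)ℤ_p^r`. *(3)*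
`(X - ζ) ∑_(l<m) ζ^(-l) X^l = ζ (X^m - 1)` (`ζ^m = 1`), and `ζ ≡ i mod p`, so `P~ e_0 ∈ ℤ (X^m - 1) + p ℤ[X]`, `P~ = ∑ (coeff P j).val X^j`: `P~(δ)(u 0) ∈ p A`. *(4)* `σ(u 0) - u 0 = e_0(δ) (σ-1)^(p^n) b_0 ∈ (γ-1)A` by (a). -/
def O_LA : Prop :=
  ∀ (p : ℕ) [Fact p.Prime], p ≠ 2 → ∀ (k : Type) [NormedField k] [NormedAlgebra ℚ_[p] k]
    (m n i : ℕ) (ζ : ℤ_[p]), 0 < m → m.Coprime p → ζ ^ m = 1 → PadicInt.toZMod ζ = (i : ZMod p) →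
  ∀ (A : Type) [AddCommGroup A] [Module.Finite ℤ A] (δ σ : A →+ A),
    (∀ x, δ^[m] x = x) → (∀ x, δ (σ x) = σ (δ x)) →
    (∀ x, ∑ j ∈ Finset.range p, σ^[p ^ n * j] x = 0) →
  ∀ (ι : Type) [Finite ι] (f : ι → A →+ ℚ_[p]) (z : k ⊗[ℤ] A), z ≠ 0 →
    extEnd δ z = algebraMap ℚ_[p] k (ζ : ℚ_[p]) • z →
    (∀ j l, extHom (((algebraMap ℚ_[p] k : ℚ_[p] →+* k) : ℚ_[p] →+ k).comp (f j))
      ((extEnd σ : (k ⊗[ℤ] A) →ₗ[k] (k ⊗[ℤ] A))^[l] z) = 0) →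
  ∃ u : ℕ → A, (∀ N, ∃ b, u N = u 0 + (σ^[p ^ n] b - b)) ∧
    (¬ ∃ (b t : A) (l : ℕ), 0 < l ∧ l • t = 0 ∧ u 0 = (σ^[p ^ n] b - b) + t) ∧
    (∃ b, ∑ j ∈ (X - C (i : ZMod p)).support,
      ((X - C (i : ZMod p)).coeff j).val • δ^[j] (u 0) = σ^[p ^ n] b - b) ∧
    (∃ b, σ (u 0) - u 0 = σ^[p ^ n] b - b) ∧
    ∀ N j l, ‖f j (σ^[l] (u N))‖ ≤ (1 / p : ℝ) ^ N

/-- **O_TRI** (the trivial element of the Selmer group).

PROOF. *LocW.* `W ∤ p`: the first part of `LocAt` is clear, `Tame p W a a`: take the exponent `p - 1` (`(-1)^(p-1) = 1`) and `a · a^(p-1) · (a⁻¹)^p = 1`. `W ∣ p`: let `z_(p-1) = a⁻¹`, `z_j = 0` for the other `j`. `nf p a z` is the determinant of the multiplication by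
`a⁻¹ s^(p-1)` on `F[s]/(s^p - a)`, which is `a^(-p) N(s)^(p-1) = a⁻¹`, because `N(s) = (-1)^(p-1) a = a` (`p` odd; with `N_ALG` (1), `N_EVL`: in an extension with `β^p = a` it is `∏_i a⁻¹ (ε^i β)^(p-1) = a^(-p) β^(p(p-1)) = a⁻¹`, as
`∏_i ε^i = 1`). So `a · nf p a z = 1`. If `Cl p W (a y^p)` then `ord_W(a) + p ord_W(y) = 0`. *SigT.* `β^p = τ a`, `z = (0, 1, 0, ...)`: `cjs p (τ ε) β z l = τ(ε)^l β`; the product is `τ(ε)^(p(p-1)/2) β^p = τ a` (`p` odd); exponent `p`. -/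
def O_TRI : Prop :=
  ∀ (p : ℕ) [Fact p.Prime], p ≠ 2 → ∀ (F : Type) [Field F] [NumberField F] (ε a : F),
    IsPrimitiveRoot ε p → a ≠ 0 →
  (∀ W : HeightOneSpectrum (𝓞 F), LocW p W a a) ∧ ∀ τ : F →+* ℂ_[p], SigT p τ ε a a

/-- **O_P1** (from units to Selmer elements). `L ⊆ M ⊆ H`, `M/L` cyclic of degree `m` with generator `δ`, `H/M` of degree `p` with group `⟨γ⟩`, `γ = σ^(p^n)` with `σ ∈ Gal(H/K)`, which commutes with `δ'`.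

PROOF (from `O_LA`, `Z_HIL`, `RP.S_RAT` (proved)). As `W_P1` (`Pool/Agent/Helper86/PW/WP1.lean`) with `O_LA` in the place of `S_LA`. `A = UU p γ` is the group of the units of norm `1`; `δ'` and `σ` act on it (`σ` commutes with `γ`). `z' ∈ k ⊗ A` is `(γ - 1) z`: it is not zero
(`i(z') = (ε'^(p^n) - 1) z`, `ε'^(p^n)` is a primitive `p`-th root of unity), `σ z' = ε' z'`, `δ' z' = ζ z'`, and it is killed by all the `f_j σ^l`. With the shift by the constant `c` we obtain the units `u N` of norm `1` with: (1) `u N · b = u 0 · γ(b)`; (2) `u 0` is not `γ(b)/b · t`, `b` a unit of norm 1, `t` a root of unity in `H`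
of norm `1`; (3) `P(δ')(u 0) = γ(b)/b`; (4) `σ(u 0)/u 0 = γ(b)/b`; (5) `‖L(τ(γ^l(u N)))‖ ≤ p^(-N)`. By Hilbert 90 there is `y ∈ Hˣ` with `γ(y) = u 0 · y`; its norm `∏_j γ^j(y)` is the image of `x ∈ Mˣ`; `P(δ) x` is a `p`-th power (`polpart`). `Z_HIL` (with `M₁ = M`, `H₁ = H`) gives `SelX`.
*Not a power of `a`:* if `x a^j = w^p`, let `t = y s^j/w`: `∏_l γ^l(s) = ε^(p(p-1)/2) s^p = a` (`p` odd), so `∏_l γ^l(t) = 1`, and `γ(t)/t = u 0 · ε^j` (`γ(s) = ε s`; `γ w = w`). `t` is a unit (`ord(γ^l t) = ord(t)` at all primes, since `u 0 ε^j` is a unit, and the sum over `l` is `0`). So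
`u 0 = γ(t)/t · ε^(-j)`, and `ε^(-j)` is a root of unity of norm `ε^(-jp) = 1`: contradiction to (2). *`σ x`:* with (4), `γ(σ(y)/y) = (σ(u 0)/u 0)(σ(y)/y) = (γ(b)/b)(σ(y)/y)`, so `σ(y) = y b c` with `c` fixed by `γ`, `c ∈ Mˣ`; taking norms `σ(x) = x · 1 · c^p` (`σ` commutes with `γ`). -/
def O_P1 : Prop :=
  ∀ (p : ℕ) [Fact p.Prime], p ≠ 2 → ∀ (Lg : IwasawaLog p ℂ_[p]) (K L M H : Type) [Field K]
    [NumberField K] [Field L] [NumberField L] [Field M] [NumberField M] [Field H] [NumberField H]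
    [Algebra K L] [Algebra K M] [Algebra K H] [Algebra L M] [Algebra L H] [Algebra M H]
    [IsScalarTower K L M] [IsScalarTower K L H] [IsScalarTower K M H] [IsScalarTower L M H]
    (m n i : ℕ) (δ : M ≃ₐ[L] M) (γ δ' : H ≃ₐ[L] H) (γ₁ : H ≃ₐ[M] H) (σ : H ≃ₐ[K] H)
    (T : Set (K →+* ℂ_[p])) (ε a : M) (s : H) (ζ : ℤ_[p]), 0 < m → m.Coprime p → ζ ^ m = 1 →
    PadicInt.toZMod ζ = (i : ZMod p) → δ ε = ε ^ i →
    HDataW (p := p) L M H M H m δ γ δ' γ₁ (above T : Set (L →+* ℂ_[p])) ε a s →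
    (∀ y : H, (σ ^ p ^ n) y = γ y) → (∀ y : H, σ (δ' y) = δ' (σ y)) →
  ∀ ε' : ℂ_[p], IsPrimitiveRoot ε' (p ^ (n + 1)) →
  ∀ z : ℂ_[p] ⊗[ℤ] Additive (𝓞 H)ˣ, z ≠ 0 → extEnd (unitsHom σ) z = ε' • z →
    extEnd (unitsHom δ') z = algebraMap ℚ_[p] ℂ_[p] (ζ : ℚ_[p]) • z →
    (∀ τ ∈ (above T : Set (H →+* ℂ_[p])), extHom (logUnits Lg τ) z = 0) →
  ∃ (x : Mˣ) (c : M),
    SelX (above (above T : Set (L →+* ℂ_[p])) : Set (M →+* ℂ_[p])) (X - C (i : ZMod p)) δ ε a x ∧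
    (∀ j : ℕ, ¬ ∃ w : M, w ^ p = x * a ^ j) ∧ c ≠ 0 ∧
    σ (algebraMap M H (x : M)) = algebraMap M H ((x : M) * c ^ p)

/-- **O_DSC** (descent from `M'` to `M`). `M'/M` is cyclic of degree `p^n` with generator `σ`.

PROOF (from `O_TRI`, `N_GRP`, `Y_SGB`). For `x' ∈ M'ˣ` call `(*)` the conditions `∀ W, LocW p W α x'` and `SigT p τ ε α x'` for all `τ` above `T`; they define a group which contains the `p`-th powers (`N_GRP`, `Y_SGB`, `S_TAM` group structure as in `W_TRV`) and `α` (`O_TRI`). If `n = 0` then `M' = M`, `x` is the image of some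
`x₂ ∈ Mˣ`. Let `n > 0`. For `x' ∈ M'ˣ` with `σ x' = x' c^p` let `ζ(x', c) = ∏_(j<p^n) σ^j(c)`; `ζ(x', c)^p = ∏ σ^j(σ(x')/x') = 1`, so it is a power of `ε`. `ζ(α, c_α) ≠ 1` (`hα`), so there is `j` with `ζ(x, c) ζ(α, c_α)^j = 1`. Let `x' = x α^j`, `c' = c c_α^j`: `σ x' = x' c'^p`, `∏_(l<p^n) σ^l(c') = 1`. By Hilbert 90
(`Pool.Agent.Helper79.RP.hilbert90` or linear independence of characters) there is `w ≠ 0` with `σ(w) = c' w`. `x₁ = x' w^(-p)` is fixed by `σ`, so it is in `Mˣ` (`hfix`). Let `E ∈ F_p[X]` with `E ≡ 1 mod P`, `E ≡ 0 mod (X^m - 1)/P`, `P = X - i` (`X^m - 1` is separable; `P ∣ X^m - 1` because `i^m = 1`), and `x₂ = pol E δ x₁`.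
`P(δ')x₁` is a `p`-th power in `M'ˣ`: for `x` by `SelX.pol`, for `α` because `δ'(α) = α^i d^p` and `i + (-i).val ≡ 0 mod p`, for `w^p` clear. `E - 1` is a multiple of `P`, so in `M'ˣ` `x₂ = x₁ v^p` (`pol` is additive and multiplicative in the polynomial up to `p`-th powers; `δ'` extends `δ`). So `x₂` satisfies `(*)`; `pol P δ x₂` is
`pol (P E) δ x₁` up to `p`-th powers of `M`, a `p`-th power in `Mˣ` because `X^m - 1` divides `P E` and `δ^m = 1`. If `x₂ α^(j') = w'^p` then `x α^(j + j')` is a `p`-th power, a contradiction. -/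
def O_DSC : Prop :=
  ∀ (p : ℕ) [Fact p.Prime], p ≠ 2 → ∀ (K L M M' : Type) [Field K] [NumberField K] [Field L]
    [NumberField L] [Field M] [NumberField M] [Field M'] [NumberField M'] [Algebra K L]
    [Algebra K M] [Algebra K M'] [Algebra M M'] [Algebra L M'] [IsScalarTower K M M']
    [IsScalarTower K L M'] (m n i : ℕ) (δ : M ≃ₐ[K] M) (δ' : M' ≃ₐ[L] M') (σ : M' ≃ₐ[M] M')
    (T : Set (K →+* ℂ_[p])) (ε α : M'), 0 < m → m.Coprime p → δ ^ m = 1 → (i : ZMod p) ^ m = 1 →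
    IsPrimitiveRoot ε p → α ≠ 0 →
    (∀ y : M, δ' (algebraMap M M' y) = algebraMap M M' (δ y)) →
    orderOf σ = p ^ n → (∀ y : M', σ y = y → ∃ y₀ : M, y = algebraMap M M' y₀) →
    (∃ d : M', δ' α = α ^ i * d ^ p) → σ ε = ε →
    (∃ c : M', σ α = α * c ^ p ∧ (0 < n → ∏ l ∈ Finset.range (p ^ n), (σ ^ l) c ≠ 1)) →
  ∀ (x : M'ˣ) (c : M'), SelX (above T : Set (M' →+* ℂ_[p])) (X - C (i : ZMod p)) δ' ε α x →
    (∀ j : ℕ, ¬ ∃ w : M', w ^ p = x * α ^ j) → c ≠ 0 → σ (x : M') = x * c ^ p →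
  ∃ x₂ : Mˣ, SelX (above T : Set (M' →+* ℂ_[p])) (X - C (i : ZMod p)) δ ε α x₂ ∧
    ∀ j : ℕ, ¬ ∃ w : M', w ^ p = algebraMap M M' (x₂ : M) * α ^ j

/-- **O_CO** (the core, `χ₀ ≡ ω`; compare `Z_CO1` and its model `Pool/Agent/Helper32/PW/WCO1.lean`). `M = K(ε)`, `M' = M J`, `F/K` is cyclic of degree `p^(n+1)`, `J ⊆ F` of degree `p^n`.

PROOF (from `O_P1`, `O_DSC`). As in `W_CO1`: `H' = M F = M'(s)` (`s ∈ H'` by the condition on `s`), `gK ∈ Gal(Ω/M')` with `gK(s) = ε s`, `γ` its restriction to `H'`, `d ∈ Gal(Ω/K)` with `d = δ` on `M` and `d = 1` on `F`, `δ'` its restriction to `H'`, `δ_J` that to `M'`. `Gal(H'/M) = Gal(F/K)` (degrees prime to each other) is cyclic of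
order `p^(n+1)`; let `σ₀` be a generator; `γ` is in its subgroup of order `p`, so `γ = σ₀^(p^n l)`, `p ∤ l`; `σ = σ₀^l` is a generator with `σ^(p^n) = γ`. Suppose that `InjectiveOn` fails for `H`, `χ`. As in `W_CO1` (`InjectiveOn` for `H`, `χ` is reduced to an eigenvector in `ℂ_p ⊗ 𝓞_(H')ˣ`) there is
`z ≠ 0` with `g z = χ₀(g|_M) η(g|_F) z` for `g ∈ Gal(H'/K)`, killed by the logarithms above `TSet`. `σ z = η(σ|_F) z`, and `η(σ|_F)` is a primitive `p^(n+1)`-th root of unity because `η(γ|_F) ≠ 1` (there is `g` trivial on `J` with `η g ≠ 1`, it is a power of `γ|_F`). `δ' z = χ₀(δ) z`, `χ₀(δ)^m = 1`, `‖χ₀(δ) - i‖ < 1`: `χ₀(δ)` is the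
Teichmüller representative of `i`: it is `ζ ∈ ℤ_p` with `ζ^m = 1`, `ζ ≡ i` (by Hensel there is such a `ζ`, `i^m ≡ 1` because `δ^m = 1`; two `m`-th roots of unity which are congruent modulo the maximal ideal are equal, `m` being prime to `p`). `HDataW` for `J ⊆ M' ⊆ H'` as in `W_CO1`. `O_P1` (`L = J`) gives `x ∈ M'ˣ`, `c`; apply `O_DSC` with
`σ|_(M')` (order `p^n`, generator of `Gal(M'/M)`), `δ' = δ_J`: `δ_J(α) = α^i d^p` by `OmType` (exponent `≡ i` modulo `p`; change `d`), `σ(α) = α c_α^p`, and if `n > 0`, `σ(s) = ε^l' s c_α`, `γ(s) = σ^(p^n)(s) = s ∏_(l<p^n) σ^l(c_α)` (`ε^(l' p^n) = 1`), so the product is `ε ≠ 1`; another `c` differs from `c_α` by a power of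
`ε`, which does not change the product. The `x₂` obtained contradicts the hypothesis. -/
def O_CO : Prop :=
  ∀ (p : ℕ) [Fact p.Prime], p ≠ 2 → ∀ (K : Type) [Field K] [NumberField K]
    (ιinf : AlgebraicClosure K →+* ℂ) (ιp : AlgebraicClosure K →+* ℂ_[p]) (Lg : IwasawaLog p ℂ_[p])
    (S : Set (K →+* ℂ)), PlaceClosed (TSet ιinf ιp S) →
  ∀ (M : IntermediateField K (AlgebraicClosure K)) [NumberField M] [IsGalois K M]
    (χ₀ : (M ≃ₐ[K] M) →* ℂ_[p]ˣ), Function.Injective χ₀ → (finrank K M).Coprime p →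
  ∀ (δ : M ≃ₐ[K] M) (i : ℕ), orderOf δ = finrank K M →
    ‖((χ₀ δ : ℂ_[p]ˣ) : ℂ_[p]) - i‖ < 1 →
  ∀ (n : ℕ) (J F M' : IntermediateField K (AlgebraicClosure K)) [NumberField J] [NumberField F]
    [NumberField M'] [IsGalois K J] [IsGalois K F] [Algebra M M'],
    (∀ x : M, ((algebraMap M M' x : M') : AlgebraicClosure K) = x) → IsCyclic (F ≃ₐ[K] F) →
    J ≤ F → finrank K J = p ^ n → finrank K F = p ^ (n + 1) → M' = M ⊔ J →
  ∀ (ε a : M'), IsPrimitiveRoot ε p →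
    (∃ ε₀ : M, algebraMap M M' ε₀ = ε ∧ δ ε₀ = ε₀ ^ i) → OmType p K ε a → a ≠ 0 →
  ∀ s : AlgebraicClosure K, s ^ p = (a : AlgebraicClosure K) → s ∉ M' →
    (∀ g : AlgebraicClosure K ≃ₐ[K] AlgebraicClosure K, (∀ y ∈ F, g y = y) →
      (∀ y ∈ M', g y = y) → g s = s) →
    (∀ x : Mˣ, SelX (above (TSet ιinf ιp S) : Set (M' →+* ℂ_[p])) (X - C (i : ZMod p)) δ ε a x →
      ∃ (j : ℕ) (w : M'), w ^ p = algebraMap M M' (x : M) * a ^ j) →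
  ∀ (H : IntermediateField K (AlgebraicClosure K)) [FiniteDimensional K H] [Normal K H]
    (χ : (H ≃ₐ[K] H) →* ℂ_[p]ˣ) (η : (F ≃ₐ[K] F) →* ℂ_[p]ˣ), Function.Injective χ →
    (∃ g : F ≃ₐ[K] F, (∀ x : F, (x : AlgebraicClosure K) ∈ J → g x = x) ∧ η g ≠ 1) →
    (∀ g : AlgebraicClosure K ≃ₐ[K] AlgebraicClosure K, χ (AlgEquiv.restrictNormalHom H g) =
      χ₀ (AlgEquiv.restrictNormalHom M g) * η (AlgEquiv.restrictNormalHom F g)) →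
  InjectiveOn (finrank K H) χ unitsHom (logSigma ιinf ιp S Lg)

/-- **O_GL** (the criterion for `χ₀ ≡ ω`; compare `Z_GL1` and its model `Pool/Agent/Helper74/PW/WGL1.lean`).

PROOF (from `O_CO`). As in `W_GL1`, with `E = ⊥`: let `F` be the field of `ψ₁` (`ψ₁` has finite `p`-power order); `J ⊆ F` because `J` is the field of `ψ₁^p`, `Gal(F/K)` is cyclic (isomorphic to the image of `ψ₁`), `[F : J] = p` (`ψ₁^p` has kernel `Gal(Ω/J)` and there is `g` trivial on `J` with `ψ₁ g ≠ 1`). `s^p = α`: `s ∉ M₂` (`¬ Pw`), and `g s = s` if `g` is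
trivial on `F` (so `ψ₁ g = 1`) and on `M₂`. `H` is the field of `χ₀ ψ₁`. -/
def O_GL : Prop :=
  ∀ (p : ℕ) [Fact p.Prime], p ≠ 2 → ∀ (K : Type) [Field K] [NumberField K]
    (ιinf : AlgebraicClosure K →+* ℂ) (ιp : AlgebraicClosure K →+* ℂ_[p]) (Lg : IwasawaLog p ℂ_[p])
    (S : Set (K →+* ℂ)), PlaceClosed (TSet ιinf ιp S) →
  ∀ (M J M₂ : IntermediateField K (AlgebraicClosure K)) [NumberField M]
    [NumberField J] [NumberField M₂] [IsGalois K M] [IsGalois K J] [Algebra M M₂],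
    (∀ x : M, ((algebraMap M M₂ x : M₂) : AlgebraicClosure K) = x) → M₂ = M ⊔ J →
    (finrank K M).Coprime p → (∃ l : ℕ, finrank K J = p ^ l) →
  ∀ (χM : (M ≃ₐ[K] M) →* ℂ_[p]ˣ), Function.Injective χM →
  ∀ (δ : M ≃ₐ[K] M) (i : ℕ), orderOf δ = finrank K M →
    ‖((χM δ : ℂ_[p]ˣ) : ℂ_[p]) - i‖ < 1 →
  ∀ (χ₀ ψ₁ : Chr K (AlgebraicClosure K) ℂ_[p]),
    (∀ g, χ₀ g = χM (AlgEquiv.restrictNormalHom M g)) →
    (∃ l : ℕ, ψ₁ ^ p ^ l = 1) → CutsOut (ψ₁ ^ p) J →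
    (∃ g : AlgebraicClosure K ≃ₐ[K] AlgebraicClosure K, (∀ x ∈ J, g x = x) ∧ ψ₁ g ≠ 1) →
  ∀ (ε : M₂) (α : (M₂)ˣ), IsPrimitiveRoot ε p →
    (∃ ε₀ : M, algebraMap M M₂ ε₀ = ε ∧ δ ε₀ = ε₀ ^ i) →
    OmType p K ε (α : M₂) → ¬ Pw p α →
    (∀ s : AlgebraicClosure K, s ^ p = ((α : M₂) : AlgebraicClosure K) →
      ∀ g : AlgebraicClosure K ≃ₐ[K] AlgebraicClosure K, (∀ x ∈ M₂, g x = x) → ψ₁ g = 1 →
        g s = s) →
    (∀ x : (M)ˣ, SelX (above (TSet ιinf ιp S) : Set (M₂ →+* ℂ_[p])) (X - C (i : ZMod p)) δ ε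
      (α : M₂) x → ∃ (j : ℕ) (w : M₂), w ^ p = algebraMap M M₂ (x : M) * α ^ j) →
  LeopoldtFor ιinf ιp Lg S (χ₀ * ψ₁)

/-- **O_GL0** (the same if `K` contains the `p`-th roots of unity and `χ₀ = 1`).

PROOF (from `O_GL`, applied to `M = ⊥`, `χM = 1`, `δ = 1`, `i = 1`). The condition of `O_GL` for `x ∈ (⊥)ˣ` is the hypothesis for the corresponding `x ∈ Kˣ` (`IntermediateField.botEquiv`): `pol (X - 1) δ x` is a `p`-th power for all `x`. -/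
def O_GL0 : Prop :=
  ∀ (p : ℕ) [Fact p.Prime], p ≠ 2 → ∀ (K : Type) [Field K] [NumberField K]
    (ιinf : AlgebraicClosure K →+* ℂ) (ιp : AlgebraicClosure K →+* ℂ_[p]) (Lg : IwasawaLog p ℂ_[p])
    (S : Set (K →+* ℂ)), PlaceClosed (TSet ιinf ιp S) →
  ∀ (J M₂ : IntermediateField K (AlgebraicClosure K)) [NumberField J] [NumberField M₂]
    [IsGalois K J], M₂ = J → (∃ l : ℕ, finrank K J = p ^ l) →
  ∀ (ψ₁ : Chr K (AlgebraicClosure K) ℂ_[p]),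
    (∃ l : ℕ, ψ₁ ^ p ^ l = 1) → CutsOut (ψ₁ ^ p) J →
    (∃ g : AlgebraicClosure K ≃ₐ[K] AlgebraicClosure K, (∀ x ∈ J, g x = x) ∧ ψ₁ g ≠ 1) →
  ∀ (ε : M₂) (α : (M₂)ˣ), IsPrimitiveRoot ε p → (∃ ε₀ : K, algebraMap K M₂ ε₀ = ε) →
    OmType p K ε (α : M₂) → ¬ Pw p α →
    (∀ s : AlgebraicClosure K, s ^ p = ((α : M₂) : AlgebraicClosure K) →
      ∀ g : AlgebraicClosure K ≃ₐ[K] AlgebraicClosure K, (∀ x ∈ M₂, g x = x) → ψ₁ g = 1 →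
        g s = s) →
    (∀ x : Kˣ, SelX (above (TSet ιinf ιp S) : Set (M₂ →+* ℂ_[p])) (X - 1 : (ZMod p)[X])
      (1 : K ≃ₐ[K] K) ε (α : M₂) x → ∃ (j : ℕ) (w : M₂), w ^ p = algebraMap K M₂ (x : K) * α ^ j) →
  LeopoldtFor ιinf ιp Lg S ψ₁

end Pool.Agent.Helper38.WY
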