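import Pool.Agent.Helper38.WY.Defs
import Pool.Agent.Helper64.PP.PEXT

/-!
# Project WY, part 7: `χ₀ ≡ ω`: the rank of the `S`-units, the bad classes

Every statement is a `def ... : Prop` with its complete proof in the docstring.
-/

set_option autoImplicit false

namespace Pool.Agent.Helper38.WY

open NumberField Polynomial Module IsDedekindDomain
open Pool.Agent.Helper51.RP Pool.Agent.Helper42.RD Pool.Agent.Helper42.PP Pool.Agent.Helper42.PP1
open Pool.Agent.Helper42.PB Pool.Agent.Helper42.PW Pool.Agent.Helper11.PP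

/-- **O_UPB** (`S_UPB` without `TorOK`; compare `Pool.Agent.Helper96.RP.s_upb`).

PROOF (from `S_LEM`, `S_EIG`, both proved: `Pool.Agent.Helper19.RP.s_lem`, `Pool.Agent.Helper9.RS.s_eig`). Let `A = S.unit M` (additive), `A₁ = A/torsion`, `D₁` the endomorphism of `A₁` induced by `D`. The torsion of `A₁` is trivial, so `S_LEM` applies to `A₁`, `D₁` with any `i` with `P(i) ≠ 0` (if `deg P ≥ 2` any `i`; if `P = X - c` take `i ≢ c`);
`ℂ ⊗ A = ℂ ⊗ A₁`, so the eigenspaces have the same dimension `≤ d + s₀`. Let `F` be as in the statement, `F̄ ⊆ A₁` a set of representatives of the images of the elements of `F` modulo `p A₁`: `|F̄| ≤ p^(deg P (d + s₀))`. If `x, y ∈ F` have images congruent modulo `p A₁`, then `x = y b^p t`, `b ∈ A`, `t` a root of unity. The group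
of the roots of unity of `M` is cyclic, so modulo `p`-th powers it has at most `p` elements; so at most `p` elements of `F` have images in the same class modulo `p A₁`. -/
def O_UPB : Prop :=
  ∀ (p : ℕ) [Fact p.Prime] (k : Type) [NormedField k] [NormedAlgebra ℚ_[p] k] (K M : Type)
    [Field K] [NumberField K] [IsTotallyComplex K] [Field M] [NumberField M] [Algebra K M]
    [IsGalois K M] (m d s₀ : ℕ) (δ : M ≃ₐ[K] M) (ζ : k) (Φ : ℤ_[p][X]) (P : (ZMod p)[X]),
    PhiData p m ζ Φ P → orderOf δ = m → finrank K M = m → finrank ℚ K = 2 * d →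
  ∀ S : Set (HeightOneSpectrum (𝓞 M)), S.Finite → (∀ w ∈ S, ∀ v, ConjP K v w → v ∈ S) →
    {w ∈ S | FreeP K w}.ncard = m * s₀ →
  ∀ F : Finset Mˣ, (∀ x ∈ F, x ∈ S.unit M ∧ Pw p (pol P δ x)) →
    (∀ x ∈ F, ∀ y ∈ F, x ≠ y → ¬ Pw p (x / y)) → F.card ≤ p ^ (P.natDegree * (d + s₀) + 1)

/-- **O_RNK** (compare `Pool.Agent.Helper64.PP.rank_le`, in `Pool/Agent/Helper64/PP/PEXT.lean`; `deg P = 1`).

PROOF (from `O_UPB`). That of `rank_le`, with `O_UPB` in the place of `S_UPB`: `p^r ≤ p^(d + s₀ + 1)`. -/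
def O_RNK : Prop :=
  ∀ (p : ℕ) [Fact p.Prime] (k : Type) [NormedField k] [NormedAlgebra ℚ_[p] k] (K M K₁ M₁ : Type)
    [Field K] [NumberField K] [IsTotallyComplex K] [Field M] [NumberField M] [Field K₁]
    [NumberField K₁] [Field M₁] [NumberField M₁] [Algebra K M] [Algebra K K₁] [Algebra K M₁]
    [Algebra M M₁] [Algebra K₁ M₁] [IsGalois K M] (ε : K₁) (m d s₀ : ℕ) (δ : M ≃ₐ[K] M) (ζ : k)
    (Φ : ℤ_[p][X]) (P : (ZMod p)[X]), PhiData p m ζ Φ P → P.natDegree = 1 → orderOf δ = m →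
    finrank K M = m → finrank ℚ K = 2 * d →
  ∀ B : Base p K M K₁ M₁ ε δ P, (up M B.S).Finite →
    (∀ w ∈ up M B.S, ∀ w', ConjP K w' w → w' ∈ up M B.S) →
    {w ∈ up M B.S | FreeP K w}.ncard = m * s₀ → B.r ≤ d + s₀ + 1

/-- The classes for which the Selmer group `SelX` (in `Mˣ`, for the Kummer generator `α = a₀ a`, `a` of the class `c`) contains
an element which is not a power of `α` up to `p`-th powers of `M₂`. -/
def BdO {p : ℕ} [Fact p.Prime] {K M K₁ M₂ : Type} [Field K]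
    [Field M] [Field K₁] [Field M₂] [NumberField M₂] [Algebra K M] [Algebra K M₂] [Algebra M M₂]
    [Algebra K₁ M₂] (T : Set (K →+* ℂ_[p])) (P : (ZMod p)[X]) (δ : M ≃ₐ[K] M) (ε : K₁)
    (a₀ : M₂ˣ) : Set (ClP p K₁) :=
  {c | ∃ (y : Mˣ) (a : K₁ˣ), clp p a = c ∧
    SelX (above T : Set (M₂ →+* ℂ_[p])) P δ (algebraMap K₁ M₂ ε)
      ((a₀ : M₂) * algebraMap K₁ M₂ (a : K₁)) y ∧
    ∀ j : ℕ, ¬ ∃ w : M₂, w ^ p =
      algebraMap M M₂ (y : M) * ((a₀ : M₂) * algebraMap K₁ M₂ (a : K₁)) ^ j}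

end Pool.Agent.Helper38.WY
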