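import Pool.Agent.Helper38.WY.Goals5
import Pool.Agent.Helper38.WY.Goals6
import Pool.Agent.Helper38.WY.Goals7
import Pool.Agent.Helper38.FW.Defs

/-!
# Project WY, part 8 (step 2): all the characters `χ₀`: moment theorems, the density theorem

The cases are: `χ₀ = 1`, `χ₀ ≡ ω`, `χ₀^(1 + p^j) ≡ ω` for some `j` (self-dual or unitary), and the rest. Every statement is
a `def ... : Prop` with its complete proof in the docstring.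
-/

set_option autoImplicit false

namespace Pool.Agent.Helper38.WY

open NumberField Polynomial Module IsDedekindDomain
open Pool.Agent.Helper51.SigLeo
open Pool.Agent.Helper51.RP Pool.Agent.Helper42.RD Pool.Agent.Helper42.PP Pool.Agent.Helper42.PP1
open Pool.Agent.Helper42.PB Pool.Agent.Helper42.PW Pool.Agent.Helper11.PP Pool.Agent.Helper11.LE
open Pool.Agent.Helper11.R (NTV2)
open Pool.Agent.Helper38.FD (Chr CutsOut LeopoldtFor IsOrdinary)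
open Pool.Agent.Helper77.PPB (ChN)
open Pool.Agent.Helper38.FW (condP LocE cntE IsOmega)

section defs

variable (p : ℕ) [Fact p.Prime] {K M K₁ : Type} (M₁ : Type) [Field K] [Field M] [Field K₁]
    [Field M₁] [Algebra K M] [Algebra K K₁] [Algebra K M₁] [Algebra M M₁] [Algebra K₁ M₁] (ε : K₁)
    (δ : M ≃ₐ[K] M) (P : (ZMod p)[X])

/-- A function `g ↦ tr(η ξ^(-i(g))) + γ n(g)⁻¹ + γ'` on `Gal(M₁/K)`, `η ≠ 0`, is not zero (`χ₀` is not `1` and not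
conjugate to `ω`). -/
def NTV3 : Prop :=
  ∀ tr : AdjoinRoot P →ₗ[ZMod p] ZMod p, tr ≠ 0 → ∀ (η : AdjoinRoot P) (γ γ' : ZMod p), η ≠ 0 →
  ∃ (g : M₁ ≃ₐ[K] M₁) (i : ℕ) (σ : K₁ ≃ₐ[K] K₁), i < finrank K M ∧
    (∀ y : M, g (algebraMap M M₁ y) = algebraMap M M₁ ((δ ^ i) y)) ∧
    (∀ y : K₁, g (algebraMap K₁ M₁ y) = algebraMap K₁ M₁ (σ y)) ∧
    tr (η * AdjoinRoot.root P ^ (finrank K M - i)) + γ * (nsig p ε σ)⁻¹ + γ' ≠ 0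

/-- `χ₀^(1 + p^j) ≡ ω`. -/
def SDual (j : ℕ) : Prop :=
  ∀ (g : M₁ ≃ₐ[K] M₁) (i : ℕ) (σ : K₁ ≃ₐ[K] K₁),
    (∀ y : M, g (algebraMap M M₁ y) = algebraMap M M₁ ((δ ^ i) y)) →
    (∀ y : K₁, g (algebraMap K₁ M₁ y) = algebraMap K₁ M₁ (σ y)) →
    (AdjoinRoot.root P ^ i) ^ (1 + p ^ j) = algebraMap (ZMod p) (AdjoinRoot P) (nsig p ε σ)

end defs

/-- **MOM3X** (the moment theorem for `χ₀^(1 + p^j) ≡ ω`; `j = 0`: constant `1/(Q - 1)`; `Q = p^(2j)`: constant `√Q/(Q - 1)`). -/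
def MOM3X : Prop :=
  ∀ (p : ℕ) [Fact p.Prime] (_ : IwasawaLog p ℂ_[p]) (K M K₁ M₁ J M₂ : Type) [Field K]
    [NumberField K] [IsTotallyComplex K] [Field M] [NumberField M] [Field K₁] [NumberField K₁]
    [Field M₁] [NumberField M₁] [Field J] [NumberField J] [Field M₂] [NumberField M₂] [Algebra K M]
    [Algebra K K₁] [Algebra K M₁] [Algebra M M₁] [Algebra K₁ M₁] [Algebra K J] [Algebra K M₂]
    [Algebra M M₂] [Algebra K₁ M₂] [Algebra M₁ M₂] [Algebra J M₂] (ε : K₁) (δ : M ≃ₐ[K] M)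
    (P : (ZMod p)[X]) (a₀ : M₂ˣ), SitB p K M K₁ M₁ J M₂ ε δ P a₀ → NTV3 p M₁ ε δ P →
  ∀ j : ℕ, SDual p M₁ ε δ P j → (j = 0 ∨ P.natDegree = 2 * j) →
  ∀ (m : ℕ) (ζ : ℂ_[p]) (Φ : ℤ_[p][X]), PhiData p m ζ Φ P → finrank K M = m → TorOK P δ →
  ∀ T : Set (K →+* ℂ_[p]), PlaceClosed T → finrank ℚ K = 2 * T.ncard →
  MomA p K ε (BdX T P δ ε a₀) ((p : ℝ) ^ j / ((p : ℝ) ^ P.natDegree - 1))

/-- **MOM4X** (the moment theorem for `χ₀ ≡ ω ≠ 1`). -/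
def MOM4X : Prop :=
  ∀ (p : ℕ) [Fact p.Prime], p ≠ 2 → ∀ (_ : IwasawaLog p ℂ_[p]) (K K₁ J M₂ : Type) [Field K]
    [NumberField K] [IsTotallyComplex K] [Field K₁] [NumberField K₁]
    [Field J] [NumberField J] [Field M₂] [NumberField M₂]
    [Algebra K K₁] [Algebra K J] [Algebra K M₂] [Algebra K₁ M₂] [Algebra J M₂] (ε : K₁)
    (δ : K₁ ≃ₐ[K] K₁) (i : ℕ) (a₀ : M₂ˣ), 1 < finrank K K₁ → δ ε = ε ^ i →
    SitB p K K₁ K₁ K₁ J M₂ ε δ (X - C (i : ZMod p)) a₀ →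
  ∀ (ζ : ℂ_[p]) (Φ : ℤ_[p][X]), PhiData p (finrank K K₁) ζ Φ (X - C (i : ZMod p)) →
  ∀ T : Set (K →+* ℂ_[p]), PlaceClosed T → finrank ℚ K = 2 * T.ncard →
  MomA p K ε (BdO T (X - C (i : ZMod p)) δ ε a₀) (1 / ((p : ℝ) - 1))

/-- **MOM4X0** (the moment theorem for `χ₀ = 1 ≡ ω`). -/
def MOM4X0 : Prop :=
  ∀ (p : ℕ) [Fact p.Prime], p ≠ 2 → ∀ (_ : IwasawaLog p ℂ_[p]) (K K₁ J M₂ : Type) [Field K]
    [NumberField K] [IsTotallyComplex K] [Field K₁] [NumberField K₁]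
    [Field J] [NumberField J] [Field M₂] [NumberField M₂]
    [Algebra K K₁] [Algebra K J] [Algebra K M₂] [Algebra K₁ M₂] [Algebra J M₂] (ε : K₁) (a₀ : M₂ˣ),
    (∃ ε₀ : K, algebraMap K K₁ ε₀ = ε) →
    SitB p K K K₁ K₁ J M₂ ε (1 : K ≃ₐ[K] K) (X - 1) a₀ →
  ∀ T : Set (K →+* ℂ_[p]), PlaceClosed T → finrank ℚ K = 2 * T.ncard →
  MomA p K ε (BdO T (X - 1 : (ZMod p)[X]) (1 : K ≃ₐ[K] K) ε a₀) (1 / ((p : ℝ) - 1))

/-- **Y_DEN2** (the density theorem, step 2): no condition on `χ₀ i` (if `p = 2` and `χ₀ i = 1` the constant is `1` and the bound is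
trivial). -/
def Y_DEN2 : Prop :=
  ∀ (p : ℕ) [Fact p.Prime] (K : Type) [Field K] [NumberField K] (ιinf : AlgebraicClosure K →+* ℂ)
    (ιp : AlgebraicClosure K →+* ℂ_[p]) (Lg : IwasawaLog p ℂ_[p]) (ι : Type) [Nonempty ι] (n : ℕ)
    (c : ι → Fin n) (S : ι → Set (K →+* ℂ))
    (M F₀ : ι → IntermediateField K (AlgebraicClosure K))
    (χ₀ ψ₀ : ι → Chr K (AlgebraicClosure K) ℂ_[p]),
    (∀ i, IsCMType (S i)) → (∀ i, IsOrdinary ιinf ιp (S i)) →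
    (∀ i, FiniteDimensional K (M i)) → (∀ i, CutsOut (χ₀ i) (M i)) →
    (∀ i, (finrank K (M i)).Coprime p) →
    (∀ i, CutsOut (ψ₀ i) (F₀ i)) → (∀ i, ∃ l : ℕ, finrank K (F₀ i) = p ^ l) →
    (∀ i j, c i = c j → S i = S j ∧ (∃ r : ℕ, χ₀ i = χ₀ j ^ p ^ r) ∧ ψ₀ i = ψ₀ j) →
  ∀ θ : Fin n → ℝ, (∀ t, 0 ≤ θ t) →
    (∀ i, ((M i = ⊥ ∨ IsOmega (χ₀ i)) ∧ 1 / ((p : ℝ) - 1) ≤ θ (c i)) ∨
      (M i ≠ ⊥ ∧ ¬ IsOmega (χ₀ i) ∧ (∀ j : ℕ, ¬ IsOmega (χ₀ i ^ (1 + p ^ j))) ∧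
        1 / ((p : ℝ) ^ orderOf (p : ZMod (finrank K (M i))) - 1) ≤ θ (c i)) ∨
      (M i ≠ ⊥ ∧ ¬ IsOmega (χ₀ i) ∧ ∃ j : ℕ, IsOmega (χ₀ i ^ (1 + p ^ j)) ∧
        (j = 0 ∨ orderOf (p : ZMod (finrank K (M i))) = 2 * j) ∧
        (p : ℝ) ^ j / ((p : ℝ) ^ orderOf (p : ZMod (finrank K (M i))) - 1) ≤ θ (c i))) →
  ∀ A : Set (IntermediateField K (AlgebraicClosure K) × Chr K (AlgebraicClosure K) ℂ_[p]),
    LocC p K A →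
  ∀ e : IntermediateField K (AlgebraicClosure K) × Chr K (AlgebraicClosure K) ℂ_[p] → ℕ,
    LocE p K e →
  (∀ X : ℕ, {x | x ∈ ChN p K ∧ condP p K x.1 * e x ≤ X}.Finite) ∧
  (∀ η : ℝ, 0 < η → ∀ᶠ X : ℕ in Filter.atTop,
    cntE e {x | x ∈ A ∧ ∃ i, ¬ GoodX ιinf ιp Lg (S i) (χ₀ i) (ψ₀ i) x} X ≤
      (∑ r, θ r + η) * cntE e A X) ∧
  (∃ δ : ℝ, 0 < δ ∧ ∀ᶠ X : ℕ in Filter.atTop,
    0 < cntE e (ChN p K) X ∧ δ * cntE e (ChN p K) X ≤ cntE e A X)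

end Pool.Agent.Helper38.WY
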