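import Pool.Agent.Helper38.WY.Defs
import Pool.Agent.Helper42.PW.Goals2

/-!
# Project WY, part 2: the condition `SigT` and the existence of `TauX`

Every statement is a `def ... : Prop` with its complete proof in the docstring.
-/

set_option autoImplicit false

namespace Pool.Agent.Helper38.WY

open NumberField Polynomial Module IsDedekindDomain
open Pool.Agent.Helper51.RP Pool.Agent.Helper42.RD Pool.Agent.Helper42.PP Pool.Agent.Helper42.PP1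
open Pool.Agent.Helper42.PB Pool.Agent.Helper42.PW
open Pool.Agent.Helper51.SigLeo (IwasawaLog)

/-- **Y_SGB** (elementary properties of `SigT`).

PROOF. Let `C = closure (Set.range τ)`: it is a subfield of `ℂ_p` (the closure of the subfield `τ(F)`), it contains `ζ = τ(ε)`,
`τ(α)`. *Change of `β`:* if `β^p = β'^p = τ α` (both `≠ 0`) then `β' = ζ^i β` and `cjs ζ β' z l = cjs ζ β z (l + i)`; the `cjs` are
periodic in `i` with period `p`, so the conditions for `β` and `β'` are equivalent; so one may use any given `β` (it exists, `ℂ_p` is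
algebraically closed). (1) `z = (t, 0, 0, ...)`, `cjs = t`, `n = 1`. (2) For `z`, `z'` let `z''_r = ∑_(j ≤ r) z_j z'_(r-j) +
τ(α) ∑_(r < j < p) z_j z'_(p+r-j)` (`r < p`); `cjs ζ β z'' i = cjs ζ β z i · cjs ζ β z' i` for all `i` (see `N_ALG` (4)); the exponent `n n'`.
(3) Let `y_i = cjs ζ β z i`; `∏_(i<p) y_i = τ x ≠ 0`. With `z^(l)_j = z_j ζ^(l j)`, `cjs ζ β z^(l) i = y_(i+l)`. By the construction
in (2), applied `p - 2` times, there is `w : ℕ → C` with `cjs ζ β w i = ∏_(l=1)^(p-1) y_(i+l) = τ(x)/y_i`; take `z'_j = w_j/τ(x)`: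
`cjs ζ β z' i = y_i⁻¹`. (4) Let `β^p = τ α`, `β' = β^n τ(c)`, `β'^p = τ(α^n c^p)`, `n n₁ ≡ 1 mod p`. For `j < p` let `j' = n₁ j % p` (a bijection of
`{0, ..., p-1}`), `n j' = j + p q` (`q ∈ ℤ`), `z'_(j') = z_j τ(α)^(-q) τ(c)^(-j')`. Then `(ζ^i β')^(j') = ζ^(i j') β^(n j') τ(c)^(j')`,
`β^(n j') = β^j τ(α)^q`, `ζ^(i j') = ζ^(i n₁ j)`; so `cjs ζ β' z' i = cjs ζ β z (i n₁)`. As `i` runs through the residues modulo `p`, so does
`i n₁`. This is the direction from `α` to `α^n c^p`, and the map `z ↦ z'` is bijective (in the first `p` entries), so the other direction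
follows. (5) `cjs (ζ^n) β z i = cjs ζ β z (n i)`. (6) `t^p = τ(α/α')`, `t ∈ C`, `t ≠ 0`: `β' = β/t`, `z'_j = z_j t^j`. (7) `Set.range (τ ∘ f) =
Set.range τ`. -/
def Y_SGB : Prop :=
  ∀ (p : ℕ) [Fact p.Prime] (F : Type) [Field F] [NumberField F] (τ : F →+* ℂ_[p]) (ε α : F),
    IsPrimitiveRoot ε p → α ≠ 0 →
    (∀ x : F, PwT p τ x → SigT p τ ε α x) ∧
    (∀ x y : F, SigT p τ ε α x → SigT p τ ε α y → SigT p τ ε α (x * y)) ∧
    (∀ x : F, x ≠ 0 → SigT p τ ε α x → SigT p τ ε α x⁻¹) ∧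
    (∀ (n : ℕ) (c : F), n.Coprime p → c ≠ 0 → ∀ x : F,
      SigT p τ ε (α ^ n * c ^ p) x ↔ SigT p τ ε α x) ∧
    (∀ n : ℕ, n.Coprime p → ∀ x : F, SigT p τ (ε ^ n) α x ↔ SigT p τ ε α x) ∧
    (∀ α' : F, α' ≠ 0 → PwT p τ (α / α') → ∀ x : F, SigT p τ ε α x → SigT p τ ε α' x) ∧
    ∀ (f : F ≃+* F) (x : F), SigT p τ (f ε) (f α) (f x) ↔ SigT p (τ.comp (f : F →+* F)) ε α x

/-- **Y_PWA** (`PwT` and `PwAt`; elements close to `1`; descent of `PwT`).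

PROOF (from `L_CLO`, `L_RT`, `L_DEN`). `τ` induces `W`, so `‖τ y‖ ≤ ‖τ y'‖ ↔ W.valuation y ≤ W.valuation y'` (`Helper32.RDV.norm_le_one_of_val`,
`val_of_norm`). (1) `→`: `Cl p W (x y^p)`, `y ≠ 0`: `‖τ(x y^p) - 1‖ ≤ p^(-3)`. Let `𝓕` be given by `L_CLO` for `τ`, `𝓕 = closure (range τ)`
(`𝓕` is closed, because it is finite dimensional, and `τ(F)` is dense in it); by `L_RT` `τ(x y^p) = v^p`, `v ∈ 𝓕`, and `t = v/τ(y)`. `←`: `t^p =
τ x`, `t ∈ closure (range τ)`, `t ≠ 0`. Choose `y ∈ F` so close to `1/t` that `‖τ(y) t - 1‖ ≤ p^(-3)`: `‖τ(x y^p) - 1‖ = ‖(τ(y) t)^p - 1‖ ≤ p^(-3)`,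
so `Cl p W (x y^p)`. (2) `L_RT` in `𝓕`. (3) As in `Y_LC0`, `V_EXTW`: let `D` be the group of the `g ∈ Gal(F'/F)` with `‖τ(g y)‖ = ‖τ y‖` for all
`y`; `|D|` divides `[F' : F]`, so it is prime to `p`. Let `𝓕'` be the closure of `τ(F')`, `ĝ` the extension of `g ∈ D` to `𝓕'` (`L_CLO`), `t ∈ 𝓕'`,
`t^p = τ x`; `t' = ∏_(g ∈ D) ĝ(t)` is fixed by all the `ĝ`, and `t'^p = τ(x)^|D|`. By `L_DEN` `t'` is in the closure of `τ(F)`: for `e > 0` let `y ∈ F'`,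
`‖t' - τ y‖ ≤ e`; then `‖τ(g y) - τ y‖ ≤ e` for `g ∈ D` (`ĝ` is an isometry, `L_ISO`), so there is `x₁ ∈ F` with `‖τ x₁ - τ y‖ ≤ C e`. With
`r |D| + s p = 1`, `τ x = (t'^r τ(x)^s)^p`. -/
def Y_PWA : Prop :=
  ∀ (p : ℕ) [Fact p.Prime],
    (∀ (F : Type) [Field F] [NumberField F] (W : HeightOneSpectrum (𝓞 F)) (τ : F →+* ℂ_[p]),
      (∀ b : 𝓞 F, b ∈ W.asIdeal ↔ ‖τ (b : F)‖ < 1) →
      ∀ x : F, x ≠ 0 → (PwAt p W x ↔ PwT p τ x)) ∧
    (∀ (F : Type) [Field F] [NumberField F] (τ : F →+* ℂ_[p]) (x : F),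
      ‖τ x - 1‖ ≤ (1 / p : ℝ) ^ 3 → PwT p τ x) ∧
    ∀ (F F' : Type) [Field F] [NumberField F] [Field F'] [NumberField F'] [Algebra F F']
      [IsGalois F F'], (finrank F F').Coprime p → ∀ (τ : F' →+* ℂ_[p]) (x : F), x ≠ 0 →
      PwT p τ (algebraMap F F' x) → PwT p (τ.comp (algebraMap F F')) x

/-- **Y_KEX** (`L_KEX` for all the automorphisms at the same time).

PROOF. That of `L_KEX` (docstring in `Helper42/PW/Goals2.lean`): `ℋ = 𝓕(β)`, `b`, `γ` do not depend on `g`, `n`, `c`. -/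
def Y_KEX : Prop :=
  ∀ (p : ℕ) [Fact p.Prime] (k : Type) [NormedField k] [NormedAlgebra ℚ_[p] k]
    [IsUltrametricDist k] (𝓕 : IntermediateField ℚ_[p] k) [FiniteDimensional ℚ_[p] 𝓕]
    (ε α : 𝓕) (β : k), IsPrimitiveRoot ε p → α ≠ 0 → β ^ p = α → β ∉ 𝓕 →
  ∃ (ℋ : IntermediateField ℚ_[p] k) (h : 𝓕 ≤ ℋ) (b : ℋ) (γ : ℋ ≃ₐ[ℚ_[p]] ℋ),
    FiniteDimensional ℚ_[p] ℋ ∧ (b : k) = β ∧
    (∀ y : ℋ, ∃ z : ℕ → 𝓕,
      y = ∑ j ∈ Finset.range p, IntermediateField.inclusion h (z j) * b ^ j) ∧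
    (∀ y : 𝓕, γ (IntermediateField.inclusion h y) = IntermediateField.inclusion h y) ∧
    γ b = IntermediateField.inclusion h ε * b ∧
    ∀ (g : 𝓕 ≃ₐ[ℚ_[p]] 𝓕) (n : ℕ) (c : 𝓕), g ε = ε ^ n → g α = α ^ n * c ^ p →
      ∃ g' : ℋ ≃ₐ[ℚ_[p]] ℋ,
        (∀ y : 𝓕, g' (IntermediateField.inclusion h y) = IntermediateField.inclusion h (g y)) ∧
        g' b = b ^ n * IntermediateField.inclusion h c ∧ ∀ y : ℋ, g' (γ y) = γ (g' y)

/-- `x ∈ 𝓕` is the norm of an element of `𝓕(β)` (or of `𝓕^p` if `β ∈ 𝓕`) the conjugates of which are equal up to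
roots of unity. -/
def SigF {p : ℕ} [Fact p.Prime] {𝓕 : IntermediateField ℚ_[p] ℂ_[p]} (ε : 𝓕) (β : ℂ_[p]) (x : 𝓕) :
    Prop :=
  ∃ (z : ℕ → 𝓕) (n : ℕ), 0 < n ∧
    ∏ i ∈ Finset.range p, cjs p (ε : ℂ_[p]) β (fun j ↦ (z j : ℂ_[p])) i = x ∧
    ∀ i, cjs p (ε : ℂ_[p]) β (fun j ↦ (z j : ℂ_[p])) i ^ n =
      cjs p (ε : ℂ_[p]) β (fun j ↦ (z j : ℂ_[p])) 0 ^ n

/-- **Y_LNF** (the line). `𝓕` is a finite extension of `ℚ_p`, `β^p = α ∈ 𝓕`, `σ` an automorphism of `𝓕` of order `p^t`,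
trivial on `ε`, the extensions of which to `𝓕(β)` have order `p^(t+1)` if `t > 0`; `𝓛` is the fixed field of `σ`. The
group of the `x ∈ 𝓛ˣ` with `SigF` is cyclic modulo `p`-th powers of `𝓛`, and automorphisms act on it as on `ε`.

PROOF (from `Y_KEX`). *Case A, `β ∈ 𝓕`.* Then `t = 0`: `σ(β)^p = α e^p`, so `σ β = ε^l β e`, and `β = σ^(p^t)(β) = ε^(l p^t) β ∏_(i<p^t) σ^i(e)`;
if `t > 0` the product would be `1`. So `σ = 1`, `𝓛 = 𝓕`. Let `y_i = cjs ε β z i ∈ 𝓕`, `y_i^N = y_0^N`: `x = ∏ y_i = y_0^p ξ`, `ξ = ∏ y_i/y_0`, `ξ^N = 1`,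
`ξ ∈ 𝓕`. *(a)* `x = y^p ξ`, `x' = y'^p ξ'`; `ξ`, `ξ'` are in a finite subgroup of `𝓕ˣ`, which is cyclic, `ξ = η^u`, `ξ' = η^(u')`. If `p` divides `u`
then `x` is a `p`-th power: `a = 1`, `b = 0`. Otherwise `x^(u') x'^(-u) = (y^(u') y'^(-u))^p`, `a = u'`, `b = -u`. *(b)* Let `N` be a multiple of
`p` with `ξ^N = 1`; the group of the `N`-th roots of unity in `𝓕` is finite cyclic, with generator `η`, `g η = η^r`; `ε` is a power of `η`, so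
`ε^r = g ε = ε^n`, `r ≡ n mod p`. `g x = g(y)^p g(ξ) = g(y)^p ξ^r`, `x^n = y^(np) ξ^n`, and `ξ^(r-n)` is a `p`-th power.
*Case B, `β ∉ 𝓕`.* Let `ℋ`, `b`, `γ` be as in `Y_KEX`. Let `σ'` be the extension of `σ` with `σ' b = b e`, if `t > 0`; as in `Y_LOC`,
`σ'^(p^t) = γ^j` with `p ∤ j` (it is trivial on `𝓕` and multiplies `b` by `∏ σ^i(e)`, a `p`-th root of unity `≠ 1`). Let `Σ = σ'` if `t > 0`, `Σ = γ` if
`t = 0`. `Σ` commutes with `γ`, and `γ` is a power of `Σ`. The fixed field of `Σ` in `ℋ` is `𝓛`: `Σ y = y` gives `γ y = y`, `y ∈ 𝓕`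
(`p y = ∑_i γ^i(y)`, see `L_LOC`), `σ y = y`. Let `x ∈ 𝓛`, `x ≠ 0`, `SigF x`, `y = ∑_j z_j b^j ∈ ℋ`: `cjs ε β z i = γ^i(y)` (in `ℂ_p`), so `x = ∏_(i<p) γ^i(y)`,
`γ^i(y)^N = y^N`. So `x = y^p ξ`, `ξ = ∏ γ^i(y)/y`, `ξ^N = 1`. From `Σ x = x`: `(Σ(y)/y)^p = ξ/Σ(ξ)`, so `θ = Σ(y)/y` satisfies `θ^(pN) = 1`.
*(a)* Let `y'`, `θ'` be the elements for `x'`. The group generated by `θ`, `θ'` is finite, hence cyclic, generated by `θ₀ = θ^c θ'^d` (`c, d ∈ ℤ`);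
`y₀ = y^c y'^d`, `Σ y₀ = θ₀ y₀`, `θ = θ₀^u`, `θ' = θ₀^(u')`. So `y/y₀^u` and `y'/y₀^(u')` are fixed by `Σ`, `y = y₀^u w`, `y' = y₀^(u') w'`, `w, w' ∈ 𝓛`; taking norms
`∏_(i<p) γ^i`: `x = x₀^u w^p`, `x' = x₀^(u') w'^p`, `x₀ = x^c x'^d ∈ 𝓛`. If `p ∣ u` then `x` is a `p`-th power in `𝓛` (`a = 1`, `b = 0`), otherwise
`x^(u') x'^(-u) = (w^(u') w'^(-u))^p`. *(b)* Let `g'` be the extension of `g` to `ℋ` (`Y_KEX`), `p e₀ ≡ 1 mod d`, `g₁ = g'^(p e₀)`. As in `Y_LOC` `g₁ = g` on `𝓕`,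
`g₁^d = 1`, and `g₁` commutes with `γ` and `Σ`. Let `N'` be a multiple of `p` with `θ^(N') = 1`; the group of the `N'`-th roots of unity of
`ℋ` is finite cyclic, with generator `η`, `g₁ η = η^r`, `g₁ θ = θ^r`, and `r ≡ n mod p` as in case A (`ε` is a power of `η`). `Σ(g₁ y) = g₁(θ) g₁(y)`, so
`g₁(y)/y^r` is fixed by `Σ`, it is `w ∈ 𝓛`. Taking norms: `g x = x^r w^p`, and `x^r = x^n (x^l)^p`, `r = n + p l`. -/
def Y_LNF : Prop :=
  ∀ (p : ℕ) [Fact p.Prime] (𝓕 : IntermediateField ℚ_[p] ℂ_[p]) [FiniteDimensional ℚ_[p] 𝓕]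
    (ε α : 𝓕) (β : ℂ_[p]), IsPrimitiveRoot ε p → α ≠ 0 → β ^ p = α →
  ∀ (σ : 𝓕 ≃ₐ[ℚ_[p]] 𝓕) (t : ℕ) (e : 𝓕), σ ε = ε → σ α = α * e ^ p → orderOf σ = p ^ t →
    (0 < t → ∏ i ∈ Finset.range (p ^ t), (σ ^ i) e ≠ 1) →
  (∀ x x' : 𝓕, x ≠ 0 → x' ≠ 0 → σ x = x → σ x' = x' → SigF ε β x → SigF ε β x' →
    ∃ (a b : ℤ) (w : 𝓕), (¬ (p : ℤ) ∣ a ∨ ¬ (p : ℤ) ∣ b) ∧ w ≠ 0 ∧ σ w = w ∧
      x ^ a * x' ^ b = w ^ p) ∧
  ∀ (g : 𝓕 ≃ₐ[ℚ_[p]] 𝓕) (n d : ℕ) (c : 𝓕), g ε = ε ^ n → g α = α ^ n * c ^ p → 0 < d →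
    d.Coprime p → g ^ d = 1 → g * σ = σ * g →
  ∀ x : 𝓕, x ≠ 0 → σ x = x → SigF ε β x → ∃ w : 𝓕, w ≠ 0 ∧ σ w = w ∧ g x = x ^ n * w ^ p

/-- The Galois theoretic situation (see `SitB`): `M₂/K` is abelian, `M₂ ⊇ M₁ ⊇ M`, `[M₁ : K]` is prime to `p`, `M₂/M₁`
is cyclic of `p`-power degree and `M₂(α^(1/p))/M₁` is cyclic. -/
structure SitG (p : ℕ) [Fact p.Prime] (K M M₁ M₂ : Type) [Field K] [NumberField K] [Field M]
    [NumberField M] [Field M₁] [NumberField M₁] [Field M₂] [NumberField M₂] [Algebra K M]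
    [Algebra K M₁] [Algebra K M₂] [Algebra M M₁] [Algebra M M₂] [Algebra M₁ M₂] (ε : M₁)
    (δ : M ≃ₐ[K] M) (P : (ZMod p)[X]) (α : M₂) : Prop where
  s1 : IsScalarTower K M M₁
  s2 : IsScalarTower K M₁ M₂
  s3 : IsScalarTower M M₁ M₂
  s4 : IsScalarTower K M M₂
  gM : IsGalois K M
  gM₁ : IsGalois K M₁
  gM₂ : IsGalois K M₂
  comm : ∀ g h : M₂ ≃ₐ[K] M₂, g * h = h * g
  cop : (finrank K M₁).Coprime p
  cyc₂ : IsCyclic (M₂ ≃ₐ[M₁] M₂)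
  deg₂ : ∃ l : ℕ, finrank M₁ M₂ = p ^ l
  prim : IsPrimitiveRoot ε p
  lin : ∀ g : M₁ ≃ₐ[K] M₁, (∀ x : M, g (algebraMap M M₁ x) = algebraMap M M₁ x) → g ε = ε →
    g = 1
  ord : orderOf δ = finrank K M
  irr : Irreducible P
  dvdP : P ∣ X ^ finrank K M - 1
  ne : α ≠ 0
  om : OmType p K (algebraMap M₁ M₂ ε) α
  cyc : ∀ σ : M₂ ≃ₐ[M₁] M₂, σ ≠ 1 → ∀ c : M₂, σ α = α * c ^ p →
    ∏ i ∈ Finset.range (orderOf σ), (σ ^ i) c ≠ 1

/-- **Y_SIT** (`SitB` gives `SitG`; only the fields of `SitB` different from `splJ`, `powp` are used).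

PROOF. The scalar towers, `gM`, `gM₁ = gMK`, `gM₂`, `prim`, `ord`, `irr`, `dvdP` are clear (`prim` by injectivity). *`comm`*: two elements of
`Gal(M₂/K)` are equal if they have the same restrictions to `M`, `K₁` and `J` (`lin₂`, `lin`); `Gal(M/K)` is cyclic (`orderOf δ = [M : K]`),
`Gal(J/K)` is cyclic, `Gal(K₁/K)` is commutative: by `gen` it is determined by the action on `ε`, `g ε = ε^n`. *`cop`*: `[M₁ : K] = [M₁ : M][M : K]`.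
*`cyc₂`, `deg₂`*: `Gal(M₂/M₁) → Gal(J/K)` is injective (`resJ_inj`, `deg_eq` in `Pool/Agent/Helper44/PB/VLINE.lean`). *`lin`*: `g ε = ε` implies that `g`
is trivial on `K₁` (`gen`). *`om`*: `om_alpha` in `Pool/Agent/Helper94/PB/VEXT.lean`. *`cyc`*: `σ(a) = a` for `a ∈ K₁`, so `σ(a₀) = a₀ c^p`; use
`SitB.cyc` for `σ` restricted to scalars `K` (same order). -/
def Y_SIT : Prop :=
  ∀ (p : ℕ) [Fact p.Prime] (K M K₁ M₁ J M₂ : Type) [Field K] [NumberField K] [Field M]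
    [NumberField M] [Field K₁] [NumberField K₁] [Field M₁] [NumberField M₁] [Field J]
    [NumberField J] [Field M₂] [NumberField M₂] [Algebra K M] [Algebra K K₁]
    [Algebra K M₁] [Algebra M M₁] [Algebra K₁ M₁] [Algebra K J] [Algebra K M₂] [Algebra M M₂]
    [Algebra K₁ M₂] [Algebra M₁ M₂] [Algebra J M₂] (ε : K₁) (δ : M ≃ₐ[K] M) (P : (ZMod p)[X])
    (a₀ : M₂ˣ), SitB p K M K₁ M₁ J M₂ ε δ P a₀ → ∀ a : K₁ˣ, OmType p K ε (a : K₁) →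
  SitG p K M M₁ M₂ (algebraMap K₁ M₁ ε) δ P ((a₀ : M₂) * algebraMap K₁ M₂ (a : K₁))

section sitG

variable {p : ℕ} [Fact p.Prime] {K M M₁ M₂ : Type} [Field K] [NumberField K] [Field M]
  [NumberField M] [Field M₁] [NumberField M₁] [Field M₂] [NumberField M₂] [Algebra K M]
  [Algebra K M₁] [Algebra K M₂] [Algebra M M₁] [Algebra M M₂] [Algebra M₁ M₂]

/-- The representation with polynomial `P` is isomorphic to the cyclotomic character on the decomposition groups of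
`σ`. -/
def OmP (M₂ : Type) [Field M₂] [NumberField M₂] [Algebra K M₂] [Algebra M M₂] (ε : M₂)
    (δ : M ≃ₐ[K] M) (P : (ZMod p)[X]) (σ : K →+* ℂ_[p]) : Prop :=
  ∀ τ : M₂ →+* ℂ_[p], τ.comp (algebraMap K M₂) = σ → ∀ (g : M₂ ≃ₐ[K] M₂) (t n : ℕ),
    (∀ y : M₂, ‖τ (g y)‖ = ‖τ y‖) →
    (∀ x : M, g (algebraMap M M₂ x) = algebraMap M M₂ ((δ ^ t) x)) → g ε = ε ^ n →
    P ∣ X ^ t - C (n : ZMod p)

end sitG

/-- **Y_LIN** (the line, for number fields).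

PROOF (from `Y_LNF`, `L_CLO`, `L_DEN`, `L_ISO`). Let `𝓕` be the closure of `τ(M₂)` (`L_CLO`), `ε₂`, `α` (and their images in `𝓕`), `β^p = τ α`. The group
`D` of the `g ∈ Gal(M₂/M₁)` with `‖τ(g y)‖ = ‖τ y‖` is cyclic, generated by `σ`, of order `p^t`; `σ(ε₂) = ε₂`, `σ α = α^n c'^p` with `n = 1 + p l`
(`om`), so `σ α = α e^p`, `e = α^l c'`, and `∏_(i<p^t) σ^i(e) ≠ 1` if `t > 0` (`cyc`). Let `σ̂` be the extension to `𝓕`: order `p^t`. An element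
`w ∈ 𝓕` with `σ̂ w = w` is in the closure of `τ(M₁)` (`L_DEN` for `M₂/M₁`, as in `Y_PWA` (3)). For `x ∈ M₁`, `SigT p τ ε₂ α x` gives `SigF` for `τ(x) ∈ 𝓕`
(the `β` may be changed, see `Y_SGB`). *`f`:* if `PwT` holds for all `x ∈ M₁ˣ` with `SigT`, take `f = 0`. Otherwise fix `x₁` with `SigT`, not `PwT` (for
`τ|_(M₁)`). For `x` with `SigT` let `a, b, w` be as in `Y_LNF` for `τ x`, `τ x₁`: if `p ∣ a` then `p ∤ b` and `τ(x₁)^b` is a `p`-th power in the closure of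
`τ(M₁)`, hence `x₁` too, a contradiction. So `p ∤ a`, and there is `i ∈ ZMod p`, unique, such that `τ(x)/τ(x₁)^i` is a `p`-th power in
the closure of `τ(M₁)`; put `f x = i` (and `f x = 0` for the other `x`). The first two properties are clear (if `SigT x`, `SigT y` and `SigT (x y)`;
`SigT (x y)` by `Y_SGB`). *Third property:* let `p^a d` be the order of `g`, `d` prime to `p`, `p^a e₀ ≡ 1 mod d`, `g' = g^(p^a e₀)`. `g'^d = 1`, and `g' = g` on `M₁`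
(the order of `g|_(M₁)` is prime to `p` and divides `p^a d`). `ĝ'` commutes with `σ̂` (`comm`). `g' ε₂ = ε₂^n`, `g' α = α^(n') c^p` with `ε₂^(n') = ε₂^n`. By
`Y_LNF` `τ(g₁ x) = ĝ'(τ x) = τ(x)^(n') w^p`, `w` in the closure of `τ(M₁)`, so `f(g₁ x) = n' f(x) = n f(x)`. -/
def Y_LIN : Prop :=
  ∀ (p : ℕ) [Fact p.Prime] (K M M₁ M₂ : Type) [Field K] [NumberField K] [Field M]
    [NumberField M] [Field M₁] [NumberField M₁] [Field M₂] [NumberField M₂] [Algebra K M]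
    [Algebra K M₁] [Algebra K M₂] [Algebra M M₁] [Algebra M M₂] [Algebra M₁ M₂] (ε : M₁)
    (δ : M ≃ₐ[K] M) (P : (ZMod p)[X]) (α : M₂), SitG p K M M₁ M₂ ε δ P α →
  ∀ τ : M₂ →+* ℂ_[p], ∃ f : M₁ˣ → ZMod p,
    (∀ x y : M₁ˣ, SigT p τ (algebraMap M₁ M₂ ε) α (algebraMap M₁ M₂ (x : M₁)) →
      SigT p τ (algebraMap M₁ M₂ ε) α (algebraMap M₁ M₂ (y : M₁)) → f (x * y) = f x + f y) ∧
    (∀ x : M₁ˣ, SigT p τ (algebraMap M₁ M₂ ε) α (algebraMap M₁ M₂ (x : M₁)) →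
      (f x = 0 ↔ PwT p (τ.comp (algebraMap M₁ M₂)) (x : M₁))) ∧
    ∀ (g : M₂ ≃ₐ[K] M₂) (g₁ : M₁ ≃ₐ[K] M₁) (n : ℕ), (∀ y : M₂, ‖τ (g y)‖ = ‖τ y‖) →
      (∀ y : M₁, g (algebraMap M₁ M₂ y) = algebraMap M₁ M₂ (g₁ y)) → g₁ ε = ε ^ n →
    ∀ x : M₁ˣ, SigT p τ (algebraMap M₁ M₂ ε) α (algebraMap M₁ M₂ (x : M₁)) →
      SigT p τ (algebraMap M₁ M₂ ε) α (algebraMap M₁ M₂ (act g₁ x : M₁ˣ)) →
      f (act g₁ x) = n * f x

/-- **Y_UPB** (upper bound for the local conditions at `T`). There are representatives `σ_i`, `i < b`, of the places of `T`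
with `OmP`, such that a set of elements of type `P` with `SigT` at `T`, pairwise incongruent modulo local `p`-th
powers, has at most `p^(b deg P)` elements.

PROOF (from `Y_LIN`, `Y_SGB`, `Y_PWA`). The set of embeddings `K → ℂ_p` is finite; choose representatives `σ_i` of the `σ ∈ T` with `OmP`
modulo `SamePl`. Let `τ_i : M₂ → ℂ_p` be an extension of `σ_i` (`ℂ_p` is algebraically closed), `f_i` the function of `Y_LIN` for `τ_i`. Let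
`Φ(x) = (f_i(δ^j x))_(i < b, j < deg P)`, `x ∈ F` (`δ^j x ∈ M` regarded in `M₁`). It is enough to show that `Φ` is injective on `F`. Let `x, y ∈ F`, `Φ(x) = Φ(y)`,
`z = x/y`. `P(δ) z` is a `p`-th power, and `SigT` holds for `z` at all `τ` above `T` (`Y_SGB` (2), (3)), and for all the `δ^j z`: let `g̃ ∈ Gal(M₂/K)` be an
extension of `δ^j`, `g̃ ε₂ = ε₂^n`, `g̃ α = α^n c^p`; `SigT` for `τ ∘ g̃`, `ε₂`, `α`, `z` is `SigT p τ (g̃ ε₂) (g̃ α) (g̃ z)` (7), hence `SigT p τ ε₂ α (g̃ z)` by (4), (5).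
Let `τ' : M → ℂ_p` be above `T`, `σ' = τ'|_K`. To show: `PwT p τ' z` (for all `τ'`, so `x = y`).
*Case 1:* `OmP` for `σ'`; let `SamePl σ' σ_i`, `F_j = f_i(δ^j z)`, `j ∈ ℕ`. `f_i` is additive on the products of the `δ^j z` and vanishes at `p`-th powers, so
`∑_j P_j F_(j+l) = 0` for all `l` (from `P(δ)(δ^l z) = w^p`), and `F_j = 0` for `j < deg P` (`Φ(x) = Φ(y)`). So `F_j = 0` for all `j` by induction (the leading
coefficient of `P` is invertible): `PwT p (τ_i|_(M₁)) (δ^j z)`, and `PwT p (τ_i|_M) (δ^j z)` by `Y_PWA` (3) for `M₁/M`. The primes of `M` induced by `τ'` and `τ_i|_M`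
are above the same prime of `K` (`SamePl σ' σ_i`), so there is `j` with `‖τ'(y)‖ = ‖τ_i(δ^j y)‖` for all `y ∈ M` (`Gal(M/K)` is transitive and consists of the powers of
`δ`). So `τ'` and `τ_i ∘ δ^j` induce the same prime, and by `Y_PWA` (1) `PwT p (τ_i ∘ δ^j) z`, which is `PwT p τ_i (δ^j z)`, implies `PwT p τ' z`.
*Case 2:* not `OmP` for `σ'`: there are `τ : M₂ → ℂ_p` above `σ'`, `g`, `t`, `n` with `P ∤ X^t - n`. Let `f` be the function of `Y_LIN` for `τ`,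
`F_j = f(δ^j z)`. With `g₁ = g|_(M₁)`: `g₁ δ^j z = δ^(j+t) z`, so `F_(j+t) = n F_j`; and `∑_j P_j F_(j+l) = 0`. So the sequence `F : ℕ → ZMod p` is killed by `P(S)` and by
`S^t - n`, `S` the shift; these polynomials are coprime (`P` is irreducible), so `F = 0`. As in case 1 `PwT p τ' z` for all the `τ'` with
`SamePl (τ'|_K) σ'`. -/
def Y_UPB : Prop :=
  ∀ (p : ℕ) [Fact p.Prime] (K M M₁ M₂ : Type) [Field K] [NumberField K] [Field M]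
    [NumberField M] [Field M₁] [NumberField M₁] [Field M₂] [NumberField M₂] [Algebra K M]
    [Algebra K M₁] [Algebra K M₂] [Algebra M M₁] [Algebra M M₂] [Algebra M₁ M₂] (ε : M₁)
    (δ : M ≃ₐ[K] M) (P : (ZMod p)[X]) (α : M₂), SitG p K M M₁ M₂ ε δ P α →
  ∀ T : Set (K →+* ℂ_[p]), ∃ (b : ℕ) (σ : Fin b → (K →+* ℂ_[p])),
    (∀ i, σ i ∈ T ∧ OmP M₂ (algebraMap M₁ M₂ ε) δ P (σ i)) ∧
    (∀ i j, SamePl p (σ i) (σ j) → i = j) ∧
    ∀ F : Finset Mˣ, (∀ x ∈ F, Pw p (pol P δ x) ∧ ∀ τ ∈ (above T : Set (M₂ →+* ℂ_[p])),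
      SigT p τ (algebraMap M₁ M₂ ε) α (algebraMap M M₂ (x : M))) →
    (∀ x ∈ F, ∀ y ∈ F, x ≠ y → ∃ τ ∈ (above T : Set (M →+* ℂ_[p])), ¬ PwT p τ ((x / y : Mˣ) : M)) →
    F.card ≤ p ^ (P.natDegree * b)

/-- **Y_LFT** (lifting of elements of the decomposition group).

PROOF. Let `g̃₀ ∈ Gal(M₂/K)` be an extension of `g`. The primes of `M₂` induced by `τ` and by `τ ∘ g̃₀` are above the same prime of `M`
(`‖τ(g y)‖ = ‖τ y‖`), so there is `h ∈ Gal(M₂/M)` such that `τ ∘ g̃₀ ∘ h` and `τ` induce the same prime (`conj_of_bel`, see `V_EXTW`, or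
`Ideal.exists_map_eq_of_isGalois`), hence the same absolute value. Take `g̃ = g̃₀ h`. -/
def Y_LFT : Prop :=
  ∀ (p : ℕ) [Fact p.Prime] (K M M₂ : Type) [Field K] [NumberField K] [Field M]
    [NumberField M] [Field M₂] [NumberField M₂] [Algebra K M] [Algebra K M₂] [Algebra M M₂]
    [IsScalarTower K M M₂] [IsGalois K M] [IsGalois K M₂] (τ : M₂ →+* ℂ_[p]) (g : M ≃ₐ[K] M),
    (∀ y : M, ‖τ (algebraMap M M₂ (g y))‖ = ‖τ (algebraMap M M₂ y)‖) →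
  ∃ g' : M₂ ≃ₐ[K] M₂, (∀ y : M, g' (algebraMap M M₂ y) = algebraMap M M₂ (g y)) ∧
    ∀ y : M₂, ‖τ (g' y)‖ = ‖τ y‖

/-- **Y_ZET** (a root of unity which is not a `p`-th power).

PROOF. The elements of `p`-power order of `𝓕ˣ`: if `ζ ≠ ζ'` are two of them, `ζ/ζ'` has order `p^a`, `a ≥ 1`, and a power `ξ` of it has order `p`,
`‖ξ - 1‖ ≤ ‖ζ/ζ' - 1‖` (`x^n - 1` is a multiple of `x - 1`), `‖ξ - 1‖^(p-1) = ‖p‖` (`∏_(0<i<p) (1 - ξ^i) = p`). So they form a discrete subset of the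
compact set `{x ∈ 𝓕 : ‖x‖ ≤ 1}` (`𝓕` is finite dimensional over `ℚ_p`), a finite set. Let `ζ` be one of maximal order `p^a`; `a ≥ 1` because of
`ε`. If `ζ^k = t^p`, `t ∈ 𝓕`, `p ∤ k`, then `t` has order `p^(a+1)` (if `a ≥ 1`), a contradiction. `ζ^(p^(a-1))` has order `p`, so it is `ε^u` with `p ∤ u`. -/
def Y_ZET : Prop :=
  ∀ (p : ℕ) [Fact p.Prime] (𝓕 : IntermediateField ℚ_[p] ℂ_[p]) [FiniteDimensional ℚ_[p] 𝓕]
    (ε : 𝓕), IsPrimitiveRoot ε p →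
  ∃ (ζ : 𝓕) (a u : ℕ), ζ ^ p ^ (a + 1) = 1 ∧ ζ ^ p ^ a = ε ^ u ∧ u.Coprime p ∧
    ∀ k : ℤ, (∃ t : 𝓕, t ≠ 0 ∧ t ^ p = ζ ^ k) → (p : ℤ) ∣ k

/-- **Y_TOR** (a torsion element at a place with `OmP`).

PROOF (from `Y_LFT`, `Y_ZET`, `Y_PWA`, `L_CLO`, `L_DEN`, `L_ISO`, `RP.S_BIN` (proved: `Pool.Agent.Helper59.RP.s_bin`)). `m = [M : K]`. Let `τ₂ : M₂ → ℂ_p` be an
extension of `σ`, `τ` its restriction to `M`, `𝓜` the closure of `τ(M)` (`L_CLO`), `w₀` the prime of `M` induced by `τ`.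
(1) *`τ₂(ε₂) ∈ 𝓜`.* Let `g ∈ Gal(M₁/M)` with `‖τ₂(g y)‖ = ‖τ₂ y‖` on `M₁`; lift it to `g̃ ∈ Gal(M₂/K)` in the decomposition group of `τ₂` (`Y_LFT` for
`M₁`). By `OmP` with `t = 0`: `P ∣ 1 - n`, so `n = 1` in `ZMod p` and `g ε = ε`, `g = 1` (`lin`). By `L_DEN` for `M₁/M` the closure of `τ₂(M₁)` is `𝓜`.
(2) Let `ζ`, `a`, `u` be given by `Y_ZET` for `𝓜`. For `g = δ^l` in the decomposition group of `τ` let `g̃` be a lift to `M₂` in that of `τ₂`, `g̃ ε₂ = ε₂^n`; `ĝ` the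
extension of `g` to `𝓜`, it is the restriction of the extension of `g̃`, so `ĝ(τ₂ ε₂) = τ₂(ε₂)^n`. `ĝ(ζ)` is a power `ζ^(n')` (the group of the `p^(a+1)`-th roots of
unity is cyclic, generated by `ζ`), and `n' ≡ n mod p` because `ζ^(p^a) = ε^u`. Denote `n(l) = n' mod p`; by `OmP` `P ∣ X^l - n(l)`.
(3) Choose `x₀ ∈ Mˣ` with `‖τ(x₀) - ζ‖ ≤ p^(-3)` and `x₀` congruent to `1` modulo `w` and `p³` at the other primes `w ∈ S` (weak approximation, `Helper32.RDV`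
`weakApproxUnits`; first approximate `ζ` by an element of `τ(M)`). All `τ'` above `T` induce primes of `S` (`LSys.abp`), so `‖τ'(x₀) - 1‖ ≤ p^(-3)` if `τ'` does not
induce `w₀`, and `‖τ'(x₀)‖ = 1` always. `LSys.approx` gives `x` with `v x w = 0` on `S`, `‖τ'(x/x₀) - 1‖ ≤ p^(-3)` for all `τ'` above `T`. So `‖τ(x) - ζ‖ ≤ p^(-3)`,
and `‖τ'(x) - 1‖ ≤ p^(-3)` for the `τ'` above `T` not inducing `w₀`.
(4) *`LocSig L (above T) x`.* Given `N` choose `x_N ∈ Mˣ` with `τ(x_N)` so close to `ζ` and `x_N` so close to `1` at the other primes of `S` that all the logarithms of the `τ'(x_N)`,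
`τ'` above `T`, have norm `≤ p^(-N)` (those inducing `w₀`: `‖τ'(x_N^(p^(a+1)) - 1)‖ = ‖τ(x_N)^(p^(a+1)) - 1‖` is very small, so the logarithm of `x_N^(p^(a+1))` is very small; see `RP.S_BIN`,
`S_RAT`). `x/x_N` satisfies `LocSig` by `S_BIN`. So there is `y` with `SigSmall N ((x/x_N) y^p)`, and `SigSmall N (x y^p)`.
(5) Let `E ∈ F_p[X]` with `E ≡ 1 mod P`, `E ≡ 0 mod (X^m - 1)/P` (`X^m - 1` is separable, `m` prime to `p`), `ξ = pol E δ x`. `pol (A B) δ = pol A δ ∘ pol B δ` and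
`pol (A + B) δ = pol A δ · pol B δ` up to `p`-th powers, `pol (X^m - 1) δ` is trivial up to `p`-th powers. So `pol P δ ξ` is a `p`-th power; `v ξ w = 0` on `S`
(`LSys.equiv`, `stable`), `LocSig ξ`. If `τ'` is above `T`, `τ'|_K` not `SamePl` to `σ`, then all the `τ' ∘ δ^j` do not induce `w₀`, so `‖τ'(δ^j x) - 1‖ ≤ p^(-3)` and
`PwT p τ' (δ^j x)` (`Y_PWA` (2)), `PwT p τ' ξ`.
(6) *Not all* `PwT p τ' ξ`, `τ'` above `T`, `SamePl (τ'|_K) σ`. Suppose the contrary. `τ ∘ δ^l` restricts to `σ`, so `PwT p τ (δ^l ξ)` for all `l ∈ ℕ`. Let `A_l = n(l)` if `δ^l` is in the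
decomposition group of `τ`, `A_l = 0` otherwise. `τ(δ^l x) = ζ^(A_l) · (p-th power in 𝓜)`: in the first case `τ(δ^l x) = ĝ(τ x)` and `‖ĝ(τ x) - ĝ(ζ)‖ ≤ p^(-3)`, in the second
case `τ ∘ δ^l` does not induce `w₀`. With `E = ∑ e_j X^j`: `τ(δ^l ξ) = ζ^(∑_j e_j A_(l+j)) · (p-th power)`, so `∑_j e_j A_(l+j) = 0` in `ZMod p` for all `l` (`Y_ZET`): `E(S) A = 0`, `S` the
shift. Let `d ≥ 1` be minimal with `δ^d` in the decomposition group (`δ^l` is in it iff `d ∣ l`), `w = n(d)`: `A_(l+d) = w A_l` (`n(l + d) = n(l) n(d)`), so `Q(S) A = 0` for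
`Q = X^d - w`, and `P ∣ Q` by `OmP`. Let `G = gcd(E, Q)`, `G(S) A = 0`. `P ∤ E`, so `P ∤ G`, `G` is a proper divisor of `Q`, of degree `r < d`, `G ≠ 0`. At the index `d - r`:
`0 = ∑_(i ≤ r) G_i A_(d-r+i) = G_r A_d` (`A_l = 0` for `0 < l < d`), but `A_d = n(d) ≠ 0` and `G_r ≠ 0`, a contradiction. -/
def Y_TOR : Prop :=
  ∀ (p : ℕ) [Fact p.Prime] (K M M₁ M₂ : Type) [Field K] [NumberField K] [Field M]
    [NumberField M] [Field M₁] [NumberField M₁] [Field M₂] [NumberField M₂] [Algebra K M]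
    [Algebra K M₁] [Algebra K M₂] [Algebra M M₁] [Algebra M M₂] [Algebra M₁ M₂] (ε : M₁)
    (δ : M ≃ₐ[K] M) (P : (ZMod p)[X]) (α : M₂), SitG p K M M₁ M₂ ε δ P α →
  ∀ (L : IwasawaLog p ℂ_[p]) (T : Set (K →+* ℂ_[p])) (S : Set (HeightOneSpectrum (𝓞 M)))
    (𝔪₀ : Ideal (𝓞 M)) (v : Mˣ → HeightOneSpectrum (𝓞 M) → ZMod p), LSys δ T S 𝔪₀ v →
  ∀ σ ∈ T, OmP M₂ (algebraMap M₁ M₂ ε) δ P σ →
  ∃ ξ : Mˣ, Pw p (pol P δ ξ) ∧ (∀ w ∈ S, v ξ w = 0) ∧ LocSig L (above T : Set (M →+* ℂ_[p])) ξ ∧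
    (∀ τ ∈ (above T : Set (M →+* ℂ_[p])), ¬ SamePl p (τ.comp (algebraMap K M)) σ →
      PwT p τ (ξ : M)) ∧
    ∃ τ ∈ (above T : Set (M →+* ℂ_[p])), SamePl p (τ.comp (algebraMap K M)) σ ∧
      ¬ PwT p τ (ξ : M)

/-- **Y_ABS** (linear algebra).

PROOF. Let `R = F_p[X]/(X^m - 1)`, `E = Mˣ`. For a subgroup `G` stable under `δ` which contains the `p`-th powers `E/G` is an `R`-module, `X` acting as `δ`
(`U` acts as `pol U δ`, because `pol` is multiplicative and additive in `U` up to `p`-th powers). Let `κ = F_p[X]/P`, `q = p^(deg P)`. `R` is a product of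
fields (`m` prime to `p`), so for an `R`-module `V` the part `V[P] = {x : P x = 0}` is `e V`, `e ∈ R` the idempotent with `e ≡ 1 mod P`, `e ≡ 0 mod (X^m - 1)/P`, and
`V ↦ V[P]` is exact. `V[P]` is a `κ`-vector space. Let `V = E/G_f`. `(G_s/G_f)[P]` has dimension `≥ b`: the classes of the `ξ_i` are in it and linearly independent over
`κ`. `(E/G_s)[P]` has dimension `≥ n` (it has at least `q^n` elements). So `dim V[P] ≥ n + b`. `dim (G_x/G_f)[P] ≤ b`: otherwise it contains a subspace of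
dimension `b + 1`, with `q^(b+1)` elements; let `x ∈ G_x` be representatives of its elements; replace `x` by `pol e δ x`, which has the same class modulo `G_f` (`e x = x` in
`V[P]`) and is in `G_x`, and `P(δ)(pol e δ x)` is a `p`-th power: contradiction with the upper bound. So `(E/G_x)[P] = V[P]/(G_x/G_f)[P]` has dimension `≥ n`;
choose `q^n` elements of it and representatives. (The existing files `Pool/Agent/Helper91/PP` (`p_sep`) and `Pool/Agent/Helper90/RP` contain the calculus with `pol`.) -/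
def Y_ABS : Prop :=
  ∀ (p : ℕ) [Fact p.Prime] (K M : Type) [Field K] [Field M] [Algebra K M] (m : ℕ)
    (δ : M ≃ₐ[K] M) (P : (ZMod p)[X]), 0 < m → m.Coprime p → δ ^ m = 1 → Irreducible P →
    P ∣ X ^ m - 1 →
  ∀ Gf Gs Gx : Subgroup Mˣ, (∀ x : Mˣ, x ^ p ∈ Gf) → Gf ≤ Gs → Gf ≤ Gx →
    (∀ x ∈ Gf, act δ x ∈ Gf) → (∀ x ∈ Gs, act δ x ∈ Gs) → (∀ x ∈ Gx, act δ x ∈ Gx) →
  ∀ n b : ℕ,
    (∃ F : Finset Mˣ, F.card = p ^ (P.natDegree * n) ∧ (∀ x ∈ F, pol P δ x ∈ Gs) ∧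
      ∀ x ∈ F, ∀ y ∈ F, x ≠ y → x / y ∉ Gs) →
    (∃ ξ : Fin b → Mˣ, (∀ i, ξ i ∈ Gs ∧ Pw p (pol P δ (ξ i))) ∧
      ∀ U : Fin b → (ZMod p)[X], ∏ i, pol (U i) δ (ξ i) ∈ Gf → ∀ i, P ∣ U i) →
    (∀ F : Finset Mˣ, (∀ x ∈ F, x ∈ Gx ∧ Pw p (pol P δ x)) →
      (∀ x ∈ F, ∀ y ∈ F, x ≠ y → x / y ∉ Gf) → F.card ≤ p ^ (P.natDegree * b)) →
  ∃ F : Finset Mˣ, F.card = p ^ (P.natDegree * n) ∧ (∀ x ∈ F, pol P δ x ∈ Gx) ∧
    ∀ x ∈ F, ∀ y ∈ F, x ≠ y → x / y ∉ Gx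

/-- **Y_EXT** (existence of `TauX` for every local class; compare `V_EXTW`, proved in `Pool/Agent/Helper87/PW/VEXTW.lean`). `SitB` is the
weak structure (without `splJ`, `powp`).

PROOF (from `L_GVL`, `W_THT`, `N_GRP`, `N_TRN`, `Y_LC0`, `Y_FRE`, `Y_SIT`, `Y_SGB`, `Y_PWA`, `Y_UPB`, `Y_TOR`, `Y_ABS`; `RS`, `RD` as in `extW`). Let `α = a₀ aτ`, `ε₂` the image of `ε`, `S_M = up M S`;
`SitG` for `α` by `Y_SIT`. The sets `R₁`, `R₂`, the functionals `θ w`, `𝔪₀`, `v` are those of the proof of `V_EXTW`. Let `AT` be the set of the `w ∈ S_M` induced by some `τ ∈ above T`.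
*The groups.* `G_s = {x : LSat L (above T) S_M v x}`. `G_f` is the group of the `x` with `v x w = 0` for `w ∈ S_M ∖ AT` and `PwT p τ x` for all `τ : M → ℂ_p` above `T`; `G_x` the group of the
`x` with `v x w = 0` for `w ∈ S_M ∖ AT` and `SigT p τ ε₂ α x` for all `τ : M₂ → ℂ_p` above `T`. They are subgroups (`Y_SGB`; for `PwT` clear), contain the `p`-th powers, and they are stable under `δ`
(`LSys.equiv`, `AT` is stable; `SigT` as in the proof of `Y_UPB`; `PwT p τ (δ x)` is `PwT p (τ ∘ δ) x`). `G_f ≤ G_x` by `Y_SGB` (1) (`PwT p (τ|_M) x → PwT p τ x`). `G_f ≤ G_s`: for `w ∈ AT`,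
`v x w = ord_w(x)` modulo `p` (`w ∉ R`), and `PwT` gives `p ∣ ord_w(x)` (`Y_PWA` (1): `Cl p w (x y^p)`); `LocSig`: by `Y_PWA` (1) and weak approximation there is one `y ∈ Mˣ` with
`‖τ(x y^p) - 1‖ ≤ p^(-3)` for all `τ` above `T`, use `RP.S_BIN` and `locSig_mul_pow`.
*The hypotheses of `Y_ABS`.* The first is the hypothesis on `LSys` (of `V_EXTW`). Let `b`, `σ_i` be given by `Y_UPB`, `ξ_i` by `Y_TOR`: `ξ_i ∈ G_s`. Let `∏_i pol (U_i) δ (ξ_i) ∈ G_f` and suppose `P ∤ U_i`. At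
the `τ` above `T` with `SamePl (τ|_K) σ_i` the factors with index `≠ i` are `PwT` (`ξ_(i')` is `PwT` at all the `τ ∘ δ^j`, since `σ_(i')` is not `SamePl` to `σ_i`), so `pol (U_i) δ (ξ_i)` is `PwT` at all these `τ`. Let
`U' U_i ≡ 1 mod P`: `pol U' δ (pol U_i δ ξ_i) = ξ_i` up to `p`-th powers (`ξ_i` is of type `P`), and the group of the `x` which are `PwT` at all these `τ` is stable under `δ`; so `ξ_i` would be `PwT` at all of them, a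
contradiction. The third hypothesis is `Y_UPB`: if `x/y ∉ G_f`, `x, y ∈ G_x`, then `v (x/y) w = 0` for `w ∈ S_M ∖ AT`, so some `PwT p τ (x/y)` is false.
*The functionals.* `p_sep` for `G_x`, as in `extW`. `hL`: `LocS p S_M x` implies `v x w = 0` for `w ∈ S_M` and `PwT` at `T`, so `x ∈ G_f ≤ G_x`. *`hS`.* Let `x` be of type `P` with the conditions of
`TauX.hS`. To show `x ∈ G_x`: `v x w = 0` for `w ∈ S_M ∖ AT`. (a), (b), (c) as in `V_EXTW`. (e) `w ∣ p` free, `w ∉ R₂`, `w ∉ AT`: every `x' ∈ Mˣ` satisfies `NmAt p W α x'` for the `W` above `w`. By `Y_LC0` for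
`M₂/M` and `W`: `PwAt p W α`. (The decomposition group `D` of `W` in `Gal(M₂/M)`: the `g ∈ D` with `g ε₂ = ε₂` are trivial on `M₁` (`lin`), so they form a subgroup of the cyclic group `Gal(M₂/M₁)` of `p`-power order,
generated by `σ`; `SitG.cyc`.) By `Y_FRE` and `SitG.cyc` the decomposition group of `W` in `Gal(M₂/M₁)` is trivial: `FreeP M₁ W`. The second part of `LocW` gives `p ∣ ord_W(x)`, hence `p ∣ ord_w(x)` as at the end of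
`extW`. (Case (d) of `V_EXTW` disappears.) -/
def Y_EXT : Prop :=
  ∀ (p : ℕ) [Fact p.Prime] (K M K₁ M₁ J M₂ : Type) [Field K] [NumberField K] [Field M]
    [NumberField M] [Field K₁] [NumberField K₁] [Field M₁] [NumberField M₁] [Field J]
    [NumberField J] [Field M₂] [NumberField M₂] [Algebra K M] [Algebra K K₁]
    [Algebra K M₁] [Algebra M M₁] [Algebra K₁ M₁] [Algebra K J] [Algebra K M₂] [Algebra M M₂]
    [Algebra K₁ M₂] [Algebra M₁ M₂] [Algebra J M₂] (ε : K₁) (δ : M ≃ₐ[K] M) (P : (ZMod p)[X])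
    (a₀ : M₂ˣ), SitB p K M K₁ M₁ J M₂ ε δ P a₀ →
  ∀ (L : IwasawaLog p ℂ_[p]) (T : Set (K →+* ℂ_[p])) (B : Base p K M K₁ M₁ ε δ P)
    (aτ : K₁ˣ), OmType p K ε (aτ : K₁) →
  ∀ n : ℕ, (∀ (𝔪₀ : Ideal (𝓞 M)) (v : Mˣ → HeightOneSpectrum (𝓞 M) → ZMod p),
      LSys δ T (up M B.S) 𝔪₀ v → ∃ F : Finset Mˣ, F.card = p ^ (P.natDegree * n) ∧
      (∀ x ∈ F, LSat L (above T) (up M B.S) v (pol P δ x)) ∧
      ∀ x ∈ F, ∀ y ∈ F, x ≠ y → ¬ LSat L (above T) (up M B.S) v (x / y)) →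
  Nonempty (TauX n B a₀ T aτ)

/-- **Y_SEL** (compare `V_SELW`, proved in `Pool/Agent/Helper42/PW/SEL.lean`). If the Selmer group of `a₀ a` is not trivial then the labels of `a` are bad.

PROOF (from `Y_SGB`, `Y_PWA`). That of `V_SELW`, with `TauX`, `SelX`. New: `SigT` for `α' = a₀ aτ` at `τ : M₂ → ℂ_p` above `T` follows from `SigT` for `α = a₀ a`: `α/α' = a/aτ`, and `LocS p (up K₁ S) (a/aτ)` gives `y ∈ K₁`
with `‖τ((a/aτ) y^p) - 1‖ ≤ p^(-3)` (`S` contains the primes above `p`), so `PwT p τ (α/α')` by `Y_PWA` (2); use `Y_SGB` (6). -/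
def Y_SEL : Prop :=
  ∀ (p : ℕ) [Fact p.Prime] (K M K₁ M₁ J M₂ : Type) [Field K] [NumberField K] [Field M]
    [NumberField M] [Field K₁] [NumberField K₁] [Field M₁] [NumberField M₁] [Field J]
    [NumberField J] [Field M₂] [NumberField M₂] [Algebra K M] [Algebra K K₁] [Algebra K M₁]
    [Algebra M M₁] [Algebra K₁ M₁] [Algebra K J] [Algebra K M₂] [Algebra M M₂] [Algebra K₁ M₂]
    [Algebra M₁ M₂] [Algebra J M₂] (ε : K₁) (δ : M ≃ₐ[K] M) (P : (ZMod p)[X])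
    [Fact (Irreducible P)] (a₀ : M₂ˣ), SitB p K M K₁ M₁ J M₂ ε δ P a₀ →
  ∀ (T : Set (K →+* ℂ_[p])) (B : Base p K M K₁ M₁ ε δ P) (D : BaseB B a₀)
    (aτ : K₁ˣ) (n : ℕ) (E : TauX n B a₀ T aτ), OmType p K ε (aτ : K₁) →
  ∀ a : K₁ˣ, OmType p K ε (a : K₁) → LocS p (up K₁ B.S) (a / aτ) →
    (∃ x : Mˣ, SelX (above T : Set (M₂ →+* ℂ_[p])) P δ (algebraMap K₁ M₂ ε)
      ((a₀ : M₂) * algebraMap K₁ M₂ (a : K₁)) x ∧ ¬ Pw p x) →
  (sysB B E.toTauF (Spl M₂ B.S) D.s0 aτ).Bad (B.lab a)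

end Pool.Agent.Helper38.WY
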