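import Pool.Agent.Helper38.WY.Defs
import Pool.Agent.Helper42.PW.Goals2
import Pool.Agent.Helper76.PB.GoalsV

/-!
# Project WY, part 3: the invariant line without conditions above `p`

Compare `Pool/Agent/Helper76/PB/GoalsF.lean`, `GoalsV.lean`. Every statement is a `def ... : Prop` with its complete
proof in the docstring.
-/

set_option autoImplicit false

namespace Pool.Agent.Helper38.WY

open NumberField Polynomial Module IsDedekindDomain
open Pool.Agent.Helper51.RP Pool.Agent.Helper42.RD Pool.Agent.Helper42.PP Pool.Agent.Helper42.PP1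
open Pool.Agent.Helper42.PB Pool.Agent.Helper42.PW Pool.Agent.Helper76.PB

/-- **F_LCP** (the norm residue map at a prime above `p` which is not split; compare `X_LCF`).

PROOF (from `L_PRM`, `L_CLO`, `L_DEN`, `L_RT`, `L_ISO`, `L_IDX` of `Helper42/PW/Goals1.lean`, all proved). The decomposition group of `W` is not trivial, so it is
`Gal(E/F) = ⟨σ⟩`, of order `p`. Let `τ : E → ℂ_p` induce `W` (`L_PRM`), `𝓔` the closure of `τ(E)` (`L_CLO`), `σ̂` the extension of `σ`, of order `p` (density), `N(z) = ∏_(i<p) σ̂^i(z)`, and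
`u ∈ 𝓔`, `u ≠ 0`, `σ̂ u = u`, not a norm (`L_IDX`). Let `𝓕` be the closure of `τ(F)`: every `w ∈ 𝓔` with `σ̂ w = w` is in `𝓕` (`L_DEN` for `E/F`: for `e > 0` let `y ∈ E`,
`‖w - τ y‖ ≤ e`; `‖τ(σ^i y) - τ y‖ ≤ e` for all `i`, so there is `x ∈ F` with `‖τ x - τ y‖ ≤ C e`). Let `C` be the group of the `x ∈ Fˣ` with `τ(x) ∈ N(𝓔ˣ)`. It contains the norms
(`τ(N_(E/F) y) = N(τ y)`), the `p`-th powers, and the `x` with `Cl p v x`: `Cl p W x`, `‖τ x - 1‖ ≤ p^(-3)`, so `τ x = t^p` with `t` in the closure of `τ(F)` (`L_RT` for this field), `τ x = N(t)`.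
`C ≠ Fˣ`: choose `x ∈ F` with `‖τ(x)/u - 1‖ ≤ p^(-3)` (`u ∈ 𝓕`); `τ(x) = u t^p`, `t ∈ 𝓕` (`L_RT`), and if `τ(x) = N(z)` then `u = N(z/t)`. The `F_p`-vector space `Fˣ/C` is not zero; a linear form which is not
zero gives `φ` (scale it so that it takes the value `1`). -/
def F_LCP : Prop :=
  ∀ (p : ℕ) [Fact p.Prime] (F E : Type) [Field F] [NumberField F] [Field E] [NumberField E]
    [Algebra F E] [IsGalois F E], finrank F E = p →
  ∀ (v : HeightOneSpectrum (𝓞 F)) (W : HeightOneSpectrum (𝓞 E)), Above W v →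
    v.valuation F (p : F) < 1 → ¬ FreeP F W →
  ∃ φ : Fˣ → ZMod p, Hom φ ∧ (∀ x : Fˣ, Cl p v (x : F) → φ x = 0) ∧
    (∀ y : Eˣ, φ (nrm F E y) = 0) ∧ ∃ x, φ x = 1

/-- **F_FI** (first inequality; compare `X_FI`, proved in `Pool/Agent/Helper74/PB/XFI.lean`). `E/F` is Galois of degree `p`, unramified
outside `Z`; if `p = 2` then `F` is totally complex.

PROOF (from `X_HQ`, `X_RKS`, `X_H90`, `X_LCF`, `X_SPC`, `F_LCP`; the first five are proved). That of `X_FI`, with the following changes. `N` is the set of all the non split primes of `Z`; for `v ∈ N` above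
`p` the functional `φ_v` is given by `F_LCP`. *`Φ` is onto:* by weak approximation there is `x ∈ Fˣ` with `Cl p v (x/x_v)` at `v` and `Cl p v' x` at the other `v' ∈ N` (`Cl` implies `LocPow` at the primes which do not divide
`p`). *`Kil p Z s`:* if `LocS p Z x`, `Cl p v (x y^p)` for `v ∈ Z`, then `φ_v(x) = φ_v(x y^p) = 0`. Everything else is the same. -/
def F_FI : Prop :=
  ∀ (p : ℕ) [Fact p.Prime] (F E : Type) [Field F] [NumberField F] [Field E] [NumberField E]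
    [Algebra F E] [IsGalois F E], finrank F E = p → (p = 2 → IsTotallyComplex F) →
  ∀ Z : Set (HeightOneSpectrum (𝓞 F)), Z.Finite → abP p F ⊆ Z → UnrZ F E Z → PrZ F Z →
  ∃ s : Fˣ → ZMod p, Kil p Z s ∧ (∃ x, s x ≠ 0) ∧ (∀ y : Eˣ, s (nrm F E y) = 0) ∧
    ∀ x : Fˣ, (∀ v ∉ Z, ordv v (x : F) ≠ 0 → v ∈ SplZ E Z) → s x = 0

/-- **F_FIK** (the functional of a Kummer extension; compare `X_FIK`, proved in `Pool/Agent/Helper30/PB/XFIK.lean`). `b` is a `Z`-unit, not a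
`p`-th power.

PROOF (from `F_FI`). That of `X_FIK`, without the part *Split above `p`*. -/
def F_FIK : Prop :=
  ∀ (p : ℕ) [Fact p.Prime] (F : Type) [Field F] [NumberField F] [IsTotallyComplex F] (ε : F),
    IsPrimitiveRoot ε p →
  ∀ Z : Set (HeightOneSpectrum (𝓞 F)), Z.Finite → abP p F ⊆ Z → PrZ F Z →
  ∀ b ∈ Z.unit F, ¬ Pw p b →
  ∃ s : Fˣ → ZMod p, Kil p Z s ∧ (∃ x, s x ≠ 0) ∧ ∀ w ∉ Z, LocPow p w (b : F) → Van Z s w

/-- **F_CNT** (existence theorem by counting; compare `X_CNT`, proved in `Pool/Agent/Helper19/PB/XCNT.lean`). Every functional `f ≠ 0` of local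
nature at `Z` which kills the `Z`-units vanishes at the primes `w ∉ Z` split in a Kummer extension `F(b^(1/p))`, `b` a `Z`-unit.

PROOF (from `F_FIK`, `X_DB`, `X_KLB`, `X_LIX`, `X_UNL`, all but the first proved). `n = [F : ℚ]`, `a = |abP p F|`, `z = |Z|`, `d = Units.rank F + 1 + z`, `2 d = n + 2 z`
(`F` is totally complex). Let `A` be the group of the `f` with `Kil p Z f` and `B` the group of the `Z`-units modulo `p`-th powers. (1) `|B| ≥ p^d` (`X_UNL`). (2) `|A| ≤ p^d`: for `v ∈ Z`, `v ∤ p`, the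
elements of `Fˣ` modulo `LocPow p v` form a group of order `≤ p²`; modulo `LocS p (abP p F)` there are at most `p^(2a+n)` classes (`X_LIX`). So the group `Q` of `Fˣ` modulo `{x : LocS p Z x}` has order
`≤ p^(2(z-a)) p^(2a+n) = p^(2z+n)` (if `x` satisfies `LocPow p v` for `v ∈ Z`, `v ∤ p`, and `LocS p (abP p F)`, then `LocS p Z x`, by weak approximation). By `InjZ` the `Z`-units
modulo `p`-th powers inject in `Q`; `A` is the group of the homomorphisms `Q/image → F_p`, so `|A| ≤ p^(2z+n-d) = p^d`. (3) For `b ∈ B`, `b ≠ 1`, let `s_b ∈ A` be given by `F_FIK`. If `s_b = c s_(b')`, `c ≠ 0`, then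
`b ∈ b'^j F^(×p)`: as in `X_CNT` (`X_DB`, `X_KLB`). So the map from the lines of `B` to the lines of `A` is injective, `|B| ≤ |A|`, hence `|A| = |B| = p^d` and it is bijective. -/
def F_CNT : Prop :=
  ∀ (p : ℕ) [Fact p.Prime] (F : Type) [Field F] [NumberField F] [IsTotallyComplex F] (ε : F),
    IsPrimitiveRoot ε p →
  ∀ Z : Set (HeightOneSpectrum (𝓞 F)), Z.Finite → abP p F ⊆ Z → PrZ F Z → InjZ p F Z →
  ∀ f : Fˣ → ZMod p, Kil p Z f → (∃ x, f x ≠ 0) →
  ∃ b ∈ Z.unit F, ¬ Pw p b ∧ ∀ w ∉ Z, LocPow p w (b : F) → Van Z f w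

/-- **F_LIN** (compare `X_LIN`, proved in `Pool/Agent/Helper96/PB/XLIN.lean`). `E₂/F` is cyclic of degree a power of `p`, `F ∋ ε`, unramified outside
`Z`, `E₁/F` the subextension of degree `p`.

PROOF (from `F_CNT`, `X_DB`, `X_KLB`). That of `X_LIN` without step (1): `F_CNT` applies to `f` itself. -/
def F_LIN : Prop :=
  ∀ (p : ℕ) [Fact p.Prime] (F E₁ E₂ : Type) [Field F] [NumberField F] [IsTotallyComplex F]
    [Field E₁] [NumberField E₁] [Field E₂] [NumberField E₂] [Algebra F E₁] [Algebra F E₂]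
    [Algebra E₁ E₂] [IsScalarTower F E₁ E₂] [IsGalois F E₁] [IsGalois F E₂]
    [IsCyclic (E₂ ≃ₐ[F] E₂)] (ε : F),
    IsPrimitiveRoot ε p → finrank F E₁ = p → (∃ l : ℕ, finrank F E₂ = p ^ l) →
  ∀ Z : Set (HeightOneSpectrum (𝓞 F)), Z.Finite → abP p F ⊆ Z → UnrZ F E₂ Z → PrZ F Z →
    InjZ p F Z → PrZ E₂ (upZ E₂ Z) →
  ∀ f : Fˣ → ZMod p, Kil p Z f → (∀ y : E₂ˣ, f (nrm F E₂ y) = 0) →
  ∀ w ∈ SplZ E₁ Z, Van Z f w

/-- **F_LIF** (`F_LIN` without `InjZ`; compare `X_LIF`, proved in `Pool/Agent/Helper83/PB/XLIF.lean`).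

PROOF (from `F_LIN`, `X_INJ`). That of `X_LIF`; in *`Kil p Z' f'`*: if `LocS p Z' x` then `LocS p Z x` and `p ∣ ord_v(x)` for `v ∈ Z' ∖ Z`. -/
def F_LIF : Prop :=
  ∀ (p : ℕ) [Fact p.Prime] (F E₁ E₂ : Type) [Field F] [NumberField F] [IsTotallyComplex F]
    [Field E₁] [NumberField E₁] [Field E₂] [NumberField E₂] [Algebra F E₁] [Algebra F E₂]
    [Algebra E₁ E₂] [IsScalarTower F E₁ E₂] [IsGalois F E₁] [IsGalois F E₂]
    [IsCyclic (E₂ ≃ₐ[F] E₂)] (ε : F),
    IsPrimitiveRoot ε p → finrank F E₁ = p → (∃ l : ℕ, finrank F E₂ = p ^ l) →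
  ∀ Z : Set (HeightOneSpectrum (𝓞 F)), Z.Finite → abP p F ⊆ Z → UnrZ F E₂ Z → PrZ F Z →
    PrZ E₂ (upZ E₂ Z) →
  ∀ f : Fˣ → ZMod p, Kil p Z f → (∀ y : E₂ˣ, f (nrm F E₂ y) = 0) →
  ∀ w ∈ SplZ E₁ Z, Van Z f w

/-- **F_LINE** (`V_LINE` for the weak structure `SitB`, without `splJ` and `powp`; compare `Pool/Agent/Helper44/PB/VLINE.lean`).

PROOF (from `F_LIF`, `X_DN`, `F_FI`). That of `V_LINE` (file `VLINE.lean`), without the two uses of `splJ`: `F_LIF` and `F_FI` have no condition at the primes above `p`. `σ₀` (from `F_FI` for `J₁/K`) satisfies `Kil p S σ₀`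
instead of `KilT`; `s = σ₀ ∘ N_(M₁/K)` satisfies `Kil p (up M₁ S) s`: if `Cl p w (x y^p)` for all `w ∈ up M₁ S` then `N(x y^p) = N(x) N(y)^p` is congruent to `1` modulo `v` and `p³` at `v ∈ S` (it is a product of conjugates,
each congruent to `1` modulo all the primes above `v`, resp. modulo `p³`), so `LocS p S (N x)`; norms of `Z`-units are `S`-units. -/
def F_LINE : Prop :=
  ∀ (p : ℕ) [Fact p.Prime] (K M K₁ M₁ J M₂ : Type) [Field K] [NumberField K] [Field M]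
    [NumberField M] [Field K₁] [NumberField K₁] [Field M₁] [NumberField M₁] [Field J]
    [NumberField J] [Field M₂] [NumberField M₂] [IsTotallyComplex M₁] [Algebra K M] [Algebra K K₁]
    [Algebra K M₁] [Algebra M M₁] [Algebra K₁ M₁] [Algebra K J] [Algebra K M₂] [Algebra M M₂]
    [Algebra K₁ M₂] [Algebra M₁ M₂] [Algebra J M₂] (ε : K₁) (δ : M ≃ₐ[K] M) (P : (ZMod p)[X])
    (a₀ : M₂ˣ), SitB p K M K₁ M₁ J M₂ ε δ P a₀ →
  ∀ (B : Base p K M K₁ M₁ ε δ P) (_ : BaseB B a₀),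
  ∃ s : M₁ˣ → ZMod p, Kil p (up M₁ B.S) s ∧ (∀ (g : M₁ ≃ₐ[K] M₁) (x : M₁ˣ), s (act g x) = s x) ∧
    ∀ f : M₁ˣ → ZMod p, Kil p (up M₁ B.S) f → (∀ y : M₂ˣ, f (nrm M₁ M₂ y) = 0) →
      ∃ c : ZMod p, ∀ x, f x = c * s x

end Pool.Agent.Helper38.WY
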