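import Pool.Agent.Helper38.WY.Goals4
import Pool.Agent.Helper38.WY.Goals3
import Pool.Agent.Helper42.PW.Goals4
import Pool.Agent.Helper38.FW.GoalsD
import Pool.Agent.Helper11.R.MOMRN
import Pool.Agent.Helper76.PB.NrmInd

/-!
# Project WY, part 5: moment theorems, classes, the density theorem without conditions above `p`

`SitB` is the weak structure (without `splJ`, `powp`). Every statement is a `def ... : Prop` with its complete proof in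
the docstring.
-/

set_option autoImplicit false

namespace Pool.Agent.Helper38.WY

open NumberField Polynomial Module IsDedekindDomain
open Pool.Agent.Helper51.SigLeo
open Pool.Agent.Helper51.RP Pool.Agent.Helper42.RD Pool.Agent.Helper42.PP Pool.Agent.Helper42.PP1
open Pool.Agent.Helper42.PB Pool.Agent.Helper42.PW Pool.Agent.Helper11.PP Pool.Agent.Helper11.LE
open Pool.Agent.Helper76.PB (NrmInd)
open Pool.Agent.Helper11.R (NTV2)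
open Pool.Agent.Helper38.FD (Chr CutsOut LeopoldtFor IsOrdinary)
open Pool.Agent.Helper77.PPB (ChN)
open Pool.Agent.Helper38.FW (condP LocE cntE)

/-- **F_ALN** (`V_ALN'` for the weak structure `SitB`; compare `Pool/Agent/Helper99/PB/VALN.lean`).

PROOF (from `F_LINE`). That of `V_ALN'`, with `F_LINE` in the place of `V_LINE`. -/
def F_ALN : Prop :=
  ∀ (p : ℕ) [Fact p.Prime] (K M K₁ M₁ J M₂ : Type) [Field K] [NumberField K] [Field M]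
    [NumberField M] [Field K₁] [NumberField K₁] [Field M₁] [NumberField M₁] [Field J]
    [NumberField J] [Field M₂] [NumberField M₂] [IsTotallyComplex M₁] [Algebra K M] [Algebra K K₁]
    [Algebra K M₁] [Algebra M M₁] [Algebra K₁ M₁] [Algebra K J] [Algebra K M₂] [Algebra M M₂]
    [Algebra K₁ M₂] [Algebra M₁ M₂] [Algebra J M₂] (ε : K₁) (δ : M ≃ₐ[K] M) (P : (ZMod p)[X])
    (a₀ : M₂ˣ), SitB p K M K₁ M₁ J M₂ ε δ P a₀ → AdjoinRoot.root P ≠ 1 →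
  ∀ (B : Base p K M K₁ M₁ ε δ P) (_ : BaseB B a₀) (n : ℕ) (E : TauF n B), NrmInd E M₂

/-- **Y_EX1** (existence of `TauX` with `NrmInd` for `χ₀ = 1`; compare `W_EX1`, proved in
`Pool/Agent/Helper49/PW/WEX1.lean`). `K` may contain the `p`-th roots of unity if `p ≠ 2`.

PROOF (from `Y_EXT`, `F_LINE`). That of `W_EX1`, with `Y_EXT` in the place of `V_EXTW`, `F_LINE` in the place of `V_LINE` and `TauX` in the place of `TauW`; the hypothesis `¬ ∃ ξ` was only used to see that `K₁` is totally complex, which follows from `p ≠ 2`. -/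
def Y_EX1 : Prop :=
  ∀ (p : ℕ) [Fact p.Prime], p ≠ 2 → ∀ (_ : IwasawaLog p ℂ_[p]) (K K₁ J M₂ : Type) [Field K]
    [NumberField K] [Field K₁] [NumberField K₁] [Field J] [NumberField J] [Field M₂]
    [NumberField M₂] [Algebra K K₁] [Algebra K J] [Algebra K M₂] [Algebra K₁ M₂] [Algebra J M₂]
    (ε : K₁) (a₀ : M₂ˣ),
    SitB p K K K₁ K₁ J M₂ ε (1 : K ≃ₐ[K] K) (X - 1) a₀ →
  ∀ (T : Set (K →+* ℂ_[p])) (B : Base p K K K₁ K₁ ε (1 : K ≃ₐ[K] K) (X - 1)) (_ : BaseB B a₀)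
    (aτ : K₁ˣ), OmType p K ε (aτ : K₁) →
  (finrank K J = 1 → ∃ E : TauX (B.S.card + T.ncard) B a₀ T aτ, NrmInd E.toTauF M₂) ∧
  (1 < finrank K J → ∃ E : TauX (B.S.card + T.ncard - 1) B a₀ T aτ, NrmInd E.toTauF M₂)

/-- **MOMBX** (`MOMBV` without conditions above `p`). -/
def MOMBX : Prop :=
  ∀ (p : ℕ) [Fact p.Prime] (_ : IwasawaLog p ℂ_[p]) (K M K₁ M₁ J M₂ : Type) [Field K]
    [NumberField K] [IsTotallyComplex K] [Field M] [NumberField M] [Field K₁] [NumberField K₁]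
    [Field M₁] [NumberField M₁] [Field J] [NumberField J] [Field M₂] [NumberField M₂] [Algebra K M]
    [Algebra K K₁] [Algebra K M₁] [Algebra M M₁] [Algebra K₁ M₁] [Algebra K J] [Algebra K M₂]
    [Algebra M M₂] [Algebra K₁ M₂] [Algebra M₁ M₂] [Algebra J M₂] (ε : K₁) (δ : M ≃ₐ[K] M)
    (P : (ZMod p)[X]) (a₀ : M₂ˣ), SitB p K M K₁ M₁ J M₂ ε δ P a₀ → NTV p M₁ ε δ P →
    1 < finrank K₁ M₂ →
  ∀ (m : ℕ) (ζ : ℂ_[p]) (Φ : ℤ_[p][X]), PhiData p m ζ Φ P → finrank K M = m → TorOK P δ →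
  ∀ T : Set (K →+* ℂ_[p]), PlaceClosed T → finrank ℚ K = 2 * T.ncard →
  MomA p K ε (BdX T P δ ε a₀) ((p : ℝ) ^ P.natDegree / (p * ((p : ℝ) ^ P.natDegree - 1)))

/-- **MOMB1X** (`MOMB1V` without conditions above `p`). -/
def MOMB1X : Prop :=
  ∀ (p : ℕ) [Fact p.Prime] (_ : IwasawaLog p ℂ_[p]) (K K₁ J M₂ : Type) [Field K]
    [NumberField K] [Field K₁] [NumberField K₁] [Field J] [NumberField J] [Field M₂]
    [NumberField M₂] [Algebra K K₁] [Algebra K J] [Algebra K M₂] [Algebra K₁ M₂] [Algebra J M₂]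
    (ε : K₁) (a₀ : M₂ˣ),
    SitB p K K K₁ K₁ J M₂ ε (1 : K ≃ₐ[K] K) (X - 1) a₀ → (¬ ∃ ξ : K, IsPrimitiveRoot ξ p) →
  ∀ T : Set (K →+* ℂ_[p]), PlaceClosed T → Units.rank K + 1 ≤ T.ncard →
  MomA p K ε (BdX T (X - 1 : (ZMod p)[X]) (1 : K ≃ₐ[K] K) ε a₀)
    ((p : ℝ) ^ (Units.rank K + 1) / (p ^ T.ncard * (p - 1)))

/-- **MOMRX** (`MOMRV` without conditions above `p`). -/
def MOMRX : Prop :=
  ∀ (p : ℕ) [Fact p.Prime] (_ : IwasawaLog p ℂ_[p]) (K M K₁ M₁ J M₂ : Type) [Field K]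
    [NumberField K] [IsTotallyComplex K] [Field M] [NumberField M] [Field K₁] [NumberField K₁]
    [Field M₁] [NumberField M₁] [Field J] [NumberField J] [Field M₂] [NumberField M₂] [Algebra K M]
    [Algebra K K₁] [Algebra K M₁] [Algebra M M₁] [Algebra K₁ M₁] [Algebra K J] [Algebra K M₂]
    [Algebra M M₂] [Algebra K₁ M₂] [Algebra M₁ M₂] [Algebra J M₂] (ε : K₁) (δ : M ≃ₐ[K] M)
    (P : (ZMod p)[X]) (a₀ : M₂ˣ), SitB p K M K₁ M₁ J M₂ ε δ P a₀ → NTV2 p M₁ ε δ P →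
  ∀ (m : ℕ) (ζ : ℂ_[p]) (Φ : ℤ_[p][X]), PhiData p m ζ Φ P → finrank K M = m → TorOK P δ →
  ∀ T : Set (K →+* ℂ_[p]), PlaceClosed T → finrank ℚ K = 2 * T.ncard →
  MomA p K ε (BdX T P δ ε a₀) (1 / ((p : ℝ) ^ P.natDegree - 1))

/-- The `Σ`-Leopoldt statement holds for `χ₀ (ψ₀ φ)^i`, `p` not dividing `i`. -/
def GoodX {p : ℕ} [Fact p.Prime] {K : Type} [Field K] [NumberField K]
    (ιinf : AlgebraicClosure K →+* ℂ) (ιp : AlgebraicClosure K →+* ℂ_[p]) (Lg : IwasawaLog p ℂ_[p])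
    (S : Set (K →+* ℂ)) (χ₀ ψ₀ : Chr K (AlgebraicClosure K) ℂ_[p])
    (x : IntermediateField K (AlgebraicClosure K) × Chr K (AlgebraicClosure K) ℂ_[p]) : Prop :=
  ∀ i : ℕ, ¬ p ∣ i → LeopoldtFor ιinf ιp Lg S (χ₀ * (ψ₀ * x.2) ^ i)

/-- **Y_DEN** (the density theorem, step 1; compare `W_DENG`, proved in `Pool/Agent/Helper77/PW/DENG.lean`): no condition above `p` on
`ψ₀ i` and on the family.

PROOF (from `MOMBX`, `MOMB1X`, `MOMRX`, `Z_GL1`, `Z_GL0`, and `Y_KUM` in `Pool/Agent/Helper42/WY/KUM.lean`). That of `W_DENG`, with `GoodX` in the place of `GoodV` (`E = ⊥`, `ψ = 1`: no `CompB`, no places of `T`, no `W_DEC`), `BdX` in the place of `BdW`; `asmG` in `Pool/Agent/Helper38/FW/ASMG.lean` is adapted in the same way. -/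
def Y_DEN : Prop :=
  ∀ (p : ℕ) [Fact p.Prime] (K : Type) [Field K] [NumberField K] (ιinf : AlgebraicClosure K →+* ℂ)
    (ιp : AlgebraicClosure K →+* ℂ_[p]) (Lg : IwasawaLog p ℂ_[p]) (ι : Type) [Nonempty ι] (n : ℕ)
    (c : ι → Fin n) (S : ι → Set (K →+* ℂ))
    (M F₀ : ι → IntermediateField K (AlgebraicClosure K))
    (χ₀ ψ₀ : ι → Chr K (AlgebraicClosure K) ℂ_[p]),
    (∀ i, IsCMType (S i)) → (∀ i, IsOrdinary ιinf ιp (S i)) →
    (∀ i, FiniteDimensional K (M i)) → (∀ i, CutsOut (χ₀ i) (M i)) →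
    (∀ i, (finrank K (M i)).Coprime p) →
    (∀ i, ∃ (g : AlgebraicClosure K ≃ₐ[K] AlgebraicClosure K) (r : ℕ),
      (∀ ξ : AlgebraicClosure K, ξ ^ p = 1 → g ξ = ξ ^ r) ∧
      ‖((χ₀ i g : ℂ_[p]ˣ) : ℂ_[p]) - r‖ = 1) →
    (∀ i, CutsOut (ψ₀ i) (F₀ i)) → (∀ i, ∃ l : ℕ, finrank K (F₀ i) = p ^ l) →
    (∀ i j, c i = c j → S i = S j ∧ (∃ r : ℕ, χ₀ i = χ₀ j ^ p ^ r) ∧ ψ₀ i = ψ₀ j) →
  ∀ θ : Fin n → ℝ, (∀ t, 0 ≤ θ t) →
    (∀ i, (M i = ⊥ ∧ 1 / ((p : ℝ) - 1) ≤ θ (c i)) ∨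
      (M i ≠ ⊥ ∧ (p ^ 2 ≤ finrank K (F₀ i) ∨ ∀ ξ : AlgebraicClosure K, IsPrimitiveRoot ξ p →
          ¬ M i ≤ IntermediateField.adjoin K {ξ}) ∧
        (p : ℝ) ^ orderOf (p : ZMod (finrank K (M i))) /
          (p * ((p : ℝ) ^ orderOf (p : ZMod (finrank K (M i))) - 1)) ≤ θ (c i)) ∨
      (M i ≠ ⊥ ∧ (∀ j : ℕ, ∃ (g : AlgebraicClosure K ≃ₐ[K] AlgebraicClosure K) (r : ℕ),
          (∀ ξ : AlgebraicClosure K, ξ ^ p = 1 → g ξ = ξ ^ r) ∧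
          ‖((χ₀ i g : ℂ_[p]ˣ) : ℂ_[p]) ^ (1 + p ^ j) - r‖ = 1) ∧
        1 / ((p : ℝ) ^ orderOf (p : ZMod (finrank K (M i))) - 1) ≤ θ (c i))) →
  ∀ A : Set (IntermediateField K (AlgebraicClosure K) × Chr K (AlgebraicClosure K) ℂ_[p]),
    LocC p K A →
  ∀ e : IntermediateField K (AlgebraicClosure K) × Chr K (AlgebraicClosure K) ℂ_[p] → ℕ,
    LocE p K e →
  (∀ X : ℕ, {x | x ∈ ChN p K ∧ condP p K x.1 * e x ≤ X}.Finite) ∧
  (∀ η : ℝ, 0 < η → ∀ᶠ X : ℕ in Filter.atTop,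
    cntE e {x | x ∈ A ∧ ∃ i, ¬ GoodX ιinf ιp Lg (S i) (χ₀ i) (ψ₀ i) x} X ≤
      (∑ r, θ r + η) * cntE e A X) ∧
  (∃ δ : ℝ, 0 < δ ∧ ∀ᶠ X : ℕ in Filter.atTop,
    0 < cntE e (ChN p K) X ∧ δ * cntE e (ChN p K) X ≤ cntE e A X)

end Pool.Agent.Helper38.WY
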