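import Pool.Agent.Helper38.WY.AsmZ
import Pool.Agent.Helper12.WY.YPWA
import Pool.Agent.Helper87.WY.EXT
import Pool.Agent.Helper42.WY.Asm
import Pool.Agent.Helper42.WY.LDen2

/-!
# Project WY: the density theorem, step 1, modulo `Z_GL0`
-/

set_option autoImplicit false

namespace Pool.Agent.Helper38.WY

open Pool.Agent.Helper42.PW Pool.Agent.Helper76.PB

theorem a_ypwa : Y_PWA := Pool.Agent.Helper12.WY.y_pwa

theorem a_yupb' : Y_UPB := a_yupb a_ypwa

theorem a_ysel' : Y_SEL := a_ysel a_ypwa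

theorem a_yext : Y_EXT :=
  Pool.Agent.Helper87.WY.y_ext Pool.Agent.Helper46.PW.l_gvl
    (Pool.Agent.Helper32.PW.w_tht a_grp) a_grp n_trn a_ylc0 Pool.Agent.Helper74.WY.y_fre
    Pool.Agent.Helper91.WY.y_sit Pool.Agent.Helper96.WY.y_sgb a_ypwa a_yupb' a_ytor
    Pool.Agent.Helper69.WY.y_abs

theorem a_den1 (h : Z_GL0) : Y_DEN :=
  Pool.Agent.Helper42.WY.a_yden a_ysel' a_yext a_fline a_zgl1 h

end Pool.Agent.Helper38.WY
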