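import Pool.Agent.Helper38.WY.Goals8
import Pool.Agent.Helper77.PPB.Goals3

/-!
# Project WY, part 9 (step 2): the conditions `NTV3`, `SDual`
-/

set_option autoImplicit false

namespace Pool.Agent.Helper38.WY

open NumberField Polynomial Module IsDedekindDomain
open Pool.Agent.Helper51.SigLeo
open Pool.Agent.Helper51.RP Pool.Agent.Helper42.RD Pool.Agent.Helper11.LE Pool.Agent.Helper11.PP
open Pool.Agent.Helper42.PP1 (SitW)

/-- **Y_NT3** (the conditions `NTV3`, `SDual` from those on `χ₀`; compare `B_NTV2`, proved in `Pool/Agent/Helper91/PPB/BNTV2.lean`).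

PROOF. *NTV3.* As for `NTV2` with `η' = 0`: with the notation there, `λ ≠ 1`, `λ ≠ ν`, `λ^(p^k)` (`0 ≤ k < f`) distinct; the function is `∑_k (β η)^(p^k) λ(g)^(-p^k) + γ ν(g)⁻¹ + γ'`, and the homomorphism `λ⁻¹` is different from `λ^(-p^k)` (`0 < k < f`), from `ν⁻¹` and from `1`, so its coefficient
`β η` would be `0` if the function were `0` (`coeff_zero` in `Helper91/PPB/BNTV2.lean`, with a smaller family). *SDual.* (K2) If `F ∈ ℤ_p[X]` and `‖F(ζ)‖ < 1` then `P ∣ F mod p`: otherwise (`P` irreducible) there are `A, B, C ∈ ℤ_p[X]` with `A F + B Φ = 1 + p C`, so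
`‖1 + p C(ζ)‖ = ‖A(ζ) F(ζ)‖ < 1`, a contradiction (`Pool.Agent.Helper58.PPB.small`, `Helper22.RP.eval_le`). Let `g ∈ Gal(M₁/K)`, `i`, `σ` as in `SDual`, `g̃ ∈ Gal(Ω/K)` with restriction `g`, `σ ε = ε^r`; `g̃ ξ = ξ^r` on the `p`-th roots of unity; `χ₀(g̃|_M) = ζ^i`; so `‖(ζ^i)^(1 + p^j) - r‖ < 1`, and by (K2)
`(root^i)^(1 + p^j) = r = nsig p ε σ` in `AdjoinRoot P`. -/
def Y_NT3 : Prop :=
  ∀ (p : ℕ) [Fact p.Prime] (K : Type) [Field K] [NumberField K]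
    (M K₁ M₁ : IntermediateField K (AlgebraicClosure K)) [NumberField M] [NumberField K₁]
    [NumberField M₁] [IsGalois K M] [Algebra M M₁] [Algebra K₁ M₁],
    (∀ x : M, ((algebraMap M M₁ x : M₁) : AlgebraicClosure K) = x) →
    (∀ x : K₁, ((algebraMap K₁ M₁ x : M₁) : AlgebraicClosure K) = x) →
  ∀ (ε : K₁) (δ : M ≃ₐ[K] M) (P : (ZMod p)[X]), SitW p K M K₁ M₁ ε δ P →
  ∀ (χ₀ : (M ≃ₐ[K] M) →* ℂ_[p]ˣ) (Φ : ℤ_[p][X]), orderOf δ = finrank K M →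
    PhiData p (finrank K M) ((χ₀ δ : ℂ_[p]ˣ) : ℂ_[p]) Φ P →
    (∃ (g : AlgebraicClosure K ≃ₐ[K] AlgebraicClosure K) (r : ℕ),
      (∀ ξ : AlgebraicClosure K, ξ ^ p = 1 → g ξ = ξ ^ r) ∧
      ‖((χ₀ (AlgEquiv.restrictNormalHom M g) : ℂ_[p]ˣ) : ℂ_[p]) - r‖ = 1) →
  NTV3 p M₁ ε δ P ∧
  ∀ j : ℕ, (∀ (g : AlgebraicClosure K ≃ₐ[K] AlgebraicClosure K) (r : ℕ),
      (∀ ξ : AlgebraicClosure K, ξ ^ p = 1 → g ξ = ξ ^ r) →
      ‖((χ₀ (AlgEquiv.restrictNormalHom M g) : ℂ_[p]ˣ) : ℂ_[p]) ^ (1 + p ^ j) - r‖ < 1) →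
    SDual p M₁ ε δ P j

end Pool.Agent.Helper38.WY
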