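import Pool.Agent.Helper38.WY.Defs
import Pool.Agent.Helper42.PW.Goals3

/-!
# Project WY, part 4: the algebraic side (a trivial Selmer group implies the `Σ`-Leopoldt statement)

No condition above `p`; compare `Pool/Agent/Helper42/PW/Goals3.lean`. Every statement is a `def ... : Prop` with its
complete proof in the docstring.
-/

set_option autoImplicit false

namespace Pool.Agent.Helper38.WY

open NumberField Polynomial Module IsDedekindDomain TensorProduct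
open Pool.Agent.Helper51.SigLeo
open Pool.Agent.Helper51.RP Pool.Agent.Helper42.RD Pool.Agent.Helper11.LE Pool.Agent.Helper11.PP
open Pool.Agent.Helper42.PW
open Pool.Agent.Helper77.RL (Sqr SplitAt NoTor)
open Pool.Agent.Helper38.FD (Chr CutsOut LeopoldtFor)

/-- **Z_KLG** (the kernel of the logarithm on the units of a local field).

PROOF. The set `{x ∈ 𝓕 : ‖x‖ = 1}` is compact (`𝓕` is finite dimensional over `ℚ_p`, so it is proper), so there are `i < j` with `‖u^i - u^j‖ ≤ p^(-3)`; `n = j - i`, `w = u^n`,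
`‖w - 1‖ ≤ p^(-3)`, `L(w) = n L(u) = 0`. By `IwasawaLog.hasSum` `L(w) = ∑ (-1)^l (w - 1)^(l+1)/(l+1)`; the terms with `l ≥ 1` have norm `< ‖w - 1‖` if `w ≠ 1` (`‖l + 1‖ ≥ 1/(l+1)` and
`(l+1) p^(-3l) < 1`), uniformly (`≤ c ‖w - 1‖`, `c < 1`), so `‖L(w)‖ = ‖w - 1‖`, and `w = 1`. -/
def Z_KLG : Prop :=
  ∀ (p : ℕ) [Fact p.Prime] (L : IwasawaLog p ℂ_[p]) (𝓕 : IntermediateField ℚ_[p] ℂ_[p])
    [FiniteDimensional ℚ_[p] 𝓕] (u : ℂ_[p]ˣ), (u : ℂ_[p]) ∈ 𝓕 → ‖(u : ℂ_[p])‖ = 1 →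
    L.toFun u = 0 → ∃ n : ℕ, 0 < n ∧ u ^ n = 1

/-- **Z_LIM** (the limit). `u N` is a sequence of units of `H` with logarithms at `τ` and its conjugates tending to `0`, which are equal up to `b ↦ γ(b)/b`, `b` units of norm `1`; `y` as in Hilbert 90.
Then `x = N(y)` satisfies `SigT`.

PROOF (from `Z_KLG`, `L_CLO`; `gen_lt` in `Pool/Agent/Helper12/PW/WHIL.lean`). Let `τ̃ : H₁ → ℂ_p` be an extension of `τ` (`ℂ_p` is algebraically closed), `β = τ̃(s)`, `𝓗` the closure of `τ̃(H₁)`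
(`L_CLO`; it is closed, finite dimensional over `ℚ_p`), `τ_H = τ̃|_H`, which is above `T`. For `N ∈ ℕ` let `b_N` be a unit of `H` with `∏_j γ^j(b_N) = 1`, `u_N b_N = u_0 γ(b_N)`, and `y_N = y b_N`: `γ(y_N) = u_N y_N`,
`∏_j γ^j(y_N) = x`. The vectors `(τ_H(γ^l b_N))_(l < p)` are in the compact set `{v ∈ 𝓗 : ‖v‖ = 1}^p` (units), so a subsequence converges to `(b_l)`; let `t_l = τ_H(γ^l y) b_l = lim τ_H(γ^l y_N)`.
`∏_(l<p) t_l = τ(x)`. `t_(l+1)/t_l = lim τ_H(γ^l u_N) =: η_l` (`l < p`, `t_p = t_0`): `‖η_l‖ = 1`, `η_l ∈ 𝓗`, and `L(η_l) = 0` (`‖L(η_l)‖ ≤ max(‖L(η_l/τ_H(γ^l u_N))‖, p^(-N))`, and `L` of an element close to `1` is small: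
`hasSum`); so `η_l` is a root of unity (`Z_KLG`), and there is `n > 0` with `t_l^n = t_0^n` for all `l`. *The `z_j`:* `H₁ = M₁(s)`, the image `y_N¹` of `y_N` in `H₁` is `∑_(j<p) z^N_j s^j` with `z^N_j ∈ M₁` (`gen_lt`), `γ₁^l(y_N¹) = ∑_j z^N_j (ε^l s)^j`, so
`p z^N_j s^j = ∑_(l<p) ε^(-jl) γ₁^l(y_N¹)` and `τ(z^N_j) = p⁻¹ β^(-j) ∑_l τ(ε)^(-jl) τ_H(γ^l y_N)` (`γ₁ = γ` on `H`) converges (along the subsequence) to `z_j ∈ closure (range τ)`, and `t_l = ∑_j z_j (τ(ε)^l β)^j = cjs p (τ ε) β z l`. For `i ≥ p` the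
`cjs` are periodic. -/
def Z_LIM : Prop :=
  ∀ (p : ℕ) [Fact p.Prime] (L : IwasawaLog p ℂ_[p]) (M H M₁ H₁ : Type)
    [Field M] [NumberField M] [Field H] [NumberField H] [Field M₁] [NumberField M₁] [Field H₁]
    [NumberField H₁] [Algebra M H] [Algebra M M₁] [Algebra M₁ H₁] [Algebra H H₁]
    (γ : H ≃ₐ[M] H) (γ₁ : H₁ ≃ₐ[M₁] H₁) (ε a : M₁) (s : H₁),
    (∀ x : M, algebraMap M₁ H₁ (algebraMap M M₁ x) = algebraMap H H₁ (algebraMap M H x)) →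
    finrank M₁ H₁ = p → IsPrimitiveRoot ε p → a ≠ 0 → s ^ p = algebraMap M₁ H₁ a →
    γ₁ s = algebraMap M₁ H₁ ε * s → (∀ y : H, γ₁ (algebraMap H H₁ y) = algebraMap H H₁ (γ y)) →
    orderOf γ = p →
  ∀ τ : M₁ →+* ℂ_[p], ∀ u : ℕ → (𝓞 H)ˣ,
    (∀ N, ∃ b : (𝓞 H)ˣ, ∏ j ∈ Finset.range p, (γ ^ j) (b : H) = 1 ∧
      (u N : H) * b = u 0 * γ (b : H)) →
    (∀ (N l : ℕ) (τ' : H →+* ℂ_[p]), τ'.comp (algebraMap M H) = τ.comp (algebraMap M M₁) →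
      ‖logUnits L τ' ((unitsHom γ)^[l] (Additive.ofMul (u N)))‖ ≤ (1 / p : ℝ) ^ N) →
  ∀ (y : Hˣ) (x : Mˣ), γ (y : H) = (u 0 : H) * y →
    algebraMap M H (x : M) = ∏ j ∈ Finset.range p, (γ ^ j) (y : H) →
  SigT p τ ε a (algebraMap M M₁ (x : M))

/-- **Z_HIL** (from units to Selmer elements; compare `W_HIL`, proved in `Pool/Agent/Helper12/PW/WHIL.lean`).

PROOF (from `Z_LIM`, `W_RM1`, `RP.S_TAM`, `N_EVL`, `N_ALG`). *loc* is the first part of `W_HIL` (its proof does not use `TypT`, `Ω`). *sig:* `Z_LIM` (`γ` is trivial on `M`). -/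
def Z_HIL : Prop :=
  ∀ (p : ℕ) [Fact p.Prime] (L : IwasawaLog p ℂ_[p]) (K M H M₁ H₁ : Type) [Field K] [NumberField K]
    [Field M] [NumberField M] [Field H] [NumberField H] [Field M₁] [NumberField M₁] [Field H₁]
    [NumberField H₁] [Algebra K M] [Algebra M H] [Algebra K H] [IsScalarTower K M H]
    [Algebra M M₁] [Algebra K M₁] [IsScalarTower K M M₁] [Algebra M₁ H₁] [Algebra H H₁] (m : ℕ)
    (δ : M ≃ₐ[K] M) (γ δ' : H ≃ₐ[K] H) (γ₁ : H₁ ≃ₐ[M₁] H₁) (T : Set (K →+* ℂ_[p])) (ε a : M₁)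
    (s : H₁) (P : (ZMod p)[X]), Irreducible P →
    HDataW (p := p) K M H M₁ H₁ m δ γ δ' γ₁ T ε a s →
  ∀ u : ℕ → (𝓞 H)ˣ, (∀ N, ∏ j ∈ Finset.range p, (γ ^ j) (u N : H) = 1) →
    (∀ N, ∃ b : (𝓞 H)ˣ, ∏ j ∈ Finset.range p, (γ ^ j) (b : H) = 1 ∧
      (u N : H) * b = u 0 * γ (b : H)) →
    (∀ N l, ∀ τ ∈ (above (above T : Set (M →+* ℂ_[p])) : Set (H →+* ℂ_[p])),
      ‖logUnits L τ ((unitsHom γ)^[l] (Additive.ofMul (u N)))‖ ≤ (1 / p : ℝ) ^ N) →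
  ∀ (y : Hˣ) (x : Mˣ), γ (y : H) = (u 0 : H) * y →
    algebraMap M H (x : M) = ∏ j ∈ Finset.range p, (γ ^ j) (y : H) → Pw p (pol P δ x) →
  SelX (above T : Set (M₁ →+* ℂ_[p])) P δ ε a x

/-- **Z_P1** (part I; compare `W_P1`, proved in `Pool/Agent/Helper86/PW/WP1.lean`).

PROOF (from `Z_HIL`, `RP.S_LA`, `RP.S_RAT`). That of `W_P1`, with `Z_HIL` in the place of `W_HIL`. -/
def Z_P1 : Prop :=
  ∀ (p : ℕ) [Fact p.Prime] (L : IwasawaLog p ℂ_[p]) (K M H M₁ H₁ : Type) [Field K] [NumberField K]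
    [Field M] [NumberField M] [Field H] [NumberField H] [Field M₁] [NumberField M₁] [Field H₁]
    [NumberField H₁] [Algebra K M] [Algebra M H] [Algebra K H] [IsScalarTower K M H]
    [Algebra M M₁] [Algebra K M₁] [IsScalarTower K M M₁] [Algebra M₁ H₁] [Algebra H H₁] (m : ℕ)
    (δ : M ≃ₐ[K] M) (γ δ' : H ≃ₐ[K] H) (γ₁ : H₁ ≃ₐ[M₁] H₁) (T : Set (K →+* ℂ_[p])) (ε a : M₁)
    (s : H₁) (ζ : ℂ_[p]) (Φ : ℤ_[p][X]) (P : (ZMod p)[X]), PhiData p m ζ Φ P →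
    HDataW (p := p) K M H M₁ H₁ m δ γ δ' γ₁ T ε a s → TorOK P δ' →
    (∀ x : Mˣ, SelX (above T : Set (M₁ →+* ℂ_[p])) P δ ε a x → Pw p x) →
  ∀ (ε' : ℂ_[p]), IsPrimitiveRoot ε' p →
  ∀ z : ℂ_[p] ⊗[ℤ] Additive (𝓞 H)ˣ, extEnd (unitsHom γ) z = ε' • z →
    extEnd (unitsHom δ') z = ζ • z →
    (∀ τ ∈ (above (above T : Set (M →+* ℂ_[p])) : Set (H →+* ℂ_[p])),
      extHom (logUnits L τ) z = 0) → z = 0

/-- **Z_P10** (part I, `M = K`; compare `W_P10`, proved in `Pool/Agent/Helper13/PW/WP10.lean`).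

PROOF (from `Z_HIL`). That of `W_P10`, with `Z_HIL` in the place of `W_HIL`. -/
def Z_P10 : Prop :=
  ∀ (p : ℕ) [Fact p.Prime] (L : IwasawaLog p ℂ_[p]) (K H K₁ H₁ : Type) [Field K] [NumberField K]
    [Field H] [NumberField H] [Field K₁] [NumberField K₁] [Field H₁]
    [NumberField H₁] [Algebra K H] [Algebra K K₁] [Algebra K₁ H₁] [Algebra H H₁]
    (γ : H ≃ₐ[K] H) (γ₁ : H₁ ≃ₐ[K₁] H₁) (T : Set (K →+* ℂ_[p])) (ε a : K₁) (s : H₁),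
    HDataW (p := p) K K H K₁ H₁ 1 1 γ 1 γ₁ T ε a s →
    (∀ x : Kˣ, (∀ W : HeightOneSpectrum (𝓞 K₁), LocW p W a (algebraMap K K₁ (x : K))) →
      (∀ τ ∈ (above T : Set (K₁ →+* ℂ_[p])), SigT p τ ε a (algebraMap K K₁ (x : K))) → Pw p x) →
  ∀ (ε' : ℂ_[p]), IsPrimitiveRoot ε' p →
  ∀ z : ℂ_[p] ⊗[ℤ] Additive (𝓞 H)ˣ, extEnd (unitsHom γ) z = ε' • z →
    (∀ τ ∈ (above T : Set (H →+* ℂ_[p])), extHom (logUnits L τ) z = 0) → z = 0

/-- **Z_TRV** (descent from `M'` to `M`; compare `W_TRV`, proved in `Pool/Agent/Helper82/PW/WTRV.lean`). The conditions are at the level `M₂ ⊇ M'` for both.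

PROOF (from `N_GRP`, `N_TRN`, `Y_SGB`). That of `W_TRV`; the group `V` of the `x ∈ M'ˣ` with `SelX`; it contains the `p`-th powers and is stable under `g ∈ Gal(M'/M)`: `SigT p τ ε α x` for all `τ` above `T`; with `f`, `c` as in the hypothesis, `τ ∘ f` is above `T` (`f` is trivial on `K`),
`SigT p (τ ∘ f) ε α x` is `SigT p τ (f ε) (f α) (f x) = SigT p τ ε (α c^p) (g x)`, so `SigT p τ ε α (g x)` (`Y_SGB` (7), (4) with `n = 1`); `LocW` as in `W_TRV`. The last part of the proof of `W_TRV` (from `M₂'` to `M₂`) is not needed: if `x = x₀ w^p` with `x₀ ∈ Mˣ`, `w ∈ M'ˣ`, then `x₀` satisfies the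
conditions at `M₂` (products with `p`-th powers). -/
def Z_TRV : Prop :=
  ∀ (p : ℕ) [Fact p.Prime] (n m : ℕ) (K M L M' M₂ : Type) [Field K] [NumberField K] [Field M]
    [NumberField M] [Field L] [NumberField L] [Field M'] [NumberField M'] [Field M₂]
    [NumberField M₂] [Algebra K M] [Algebra K L] [Algebra K M'] [Algebra K M₂]
    [Algebra M M'] [Algebra L M'] [IsScalarTower K M M'] [IsScalarTower K L M'] [Algebra M M₂]
    [Algebra M' M₂] [IsScalarTower M M' M₂] [IsScalarTower K M' M₂], Sqr p n K M L M' →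
  ∀ (δ : M ≃ₐ[K] M) (δL : M' ≃ₐ[L] M') (P : (ZMod p)[X]), Irreducible P → δ ^ m = 1 →
    (∀ x : M, δL (algebraMap M M' x) = algebraMap M M' (δ x)) → TorOK P δL →
  ∀ (T : Set (K →+* ℂ_[p])) (ε α : M₂), IsPrimitiveRoot ε p → α ≠ 0 →
    (∀ g : M' ≃ₐ[M] M', ∃ (f : M₂ ≃+* M₂) (c : M₂),
      (∀ x : M', f (algebraMap M' M₂ x) = algebraMap M' M₂ (g x)) ∧ f ε = ε ∧
      f α = α * c ^ p) →
    (∀ x : Mˣ, SelX (above T : Set (M₂ →+* ℂ_[p])) P δ ε α x → Pw p x) →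
  ∀ x : M'ˣ, SelX (above T : Set (M₂ →+* ℂ_[p])) P δL ε α x → Pw p x

/-- **Z_CO1** (the core, `χ₀ ≠ 1`; compare `W_CO1`, proved in `Pool/Agent/Helper32/PW/WCO1.lean`).

PROOF (from `Z_P1`; `PPB.B_TOR` is a theorem). That of `W_CO1`, with `Z_P1` in the place of `W_P1`; no `TypT`, `W_SPF`, `W_NOT`. The set of embeddings: `above (above T)` for `L` in `W_CO1` corresponds to `above T'`, `T' = above (TSet ιinf ιp S) : Set (L →+* ℂ_p)`; an embedding of `M₂` is above `T'` if and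
only if it is above `TSet ιinf ιp S`. -/
def Z_CO1 : Prop :=
  ∀ (p : ℕ) [Fact p.Prime] (K : Type) [Field K] [NumberField K]
    (ιinf : AlgebraicClosure K →+* ℂ) (ιp : AlgebraicClosure K →+* ℂ_[p]) (Lg : IwasawaLog p ℂ_[p])
    (S : Set (K →+* ℂ)), PlaceClosed (TSet ιinf ιp S) →
  ∀ (M : IntermediateField K (AlgebraicClosure K)) [NumberField M] [IsGalois K M]
    (χ₀ : (M ≃ₐ[K] M) →* ℂ_[p]ˣ), Function.Injective χ₀ → (finrank K M).Coprime p →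
  ∀ (δ : M ≃ₐ[K] M) (Φ : ℤ_[p][X]) (P : (ZMod p)[X]), orderOf δ = finrank K M →
    PhiData p (finrank K M) ((χ₀ δ : ℂ_[p]ˣ) : ℂ_[p]) Φ P → TorOK P δ →
  ∀ (n : ℕ) (L F M' M₂ : IntermediateField K (AlgebraicClosure K)) [NumberField L] [NumberField F]
    [NumberField M'] [NumberField M₂] [IsGalois K L] [IsGalois K F] [Algebra M M'] [Algebra L M']
    [Algebra M' M₂],
    (∀ x : M, ((algebraMap M M' x : M') : AlgebraicClosure K) = x) →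
    (∀ x : L, ((algebraMap L M' x : M') : AlgebraicClosure K) = x) →
    (∀ x : M', ((algebraMap M' M₂ x : M₂) : AlgebraicClosure K) = x) →
    L ≤ F → finrank K L = p ^ n → finrank K F = p ^ (n + 1) → M' = M ⊔ L →
    IsGalois M' M₂ → (finrank M' M₂).Coprime p →
  ∀ (δL : M' ≃ₐ[L] M'), (∀ x : M, δL (algebraMap M M' x) = algebraMap M M' (δ x)) →
  ∀ (ε a : M₂), IsPrimitiveRoot ε p → a ≠ 0 →
  ∀ s : AlgebraicClosure K, s ^ p = (a : AlgebraicClosure K) → s ∉ M₂ →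
    (∀ g : AlgebraicClosure K ≃ₐ[K] AlgebraicClosure K, (∀ y ∈ F, g y = y) →
      (∀ y ∈ M₂, g y = y) → g s = s) →
    (∀ x : (M')ˣ, SelX (above (TSet ιinf ιp S) : Set (M₂ →+* ℂ_[p])) P δL ε a x → Pw p x) →
  ∀ (H : IntermediateField K (AlgebraicClosure K)) [FiniteDimensional K H] [Normal K H]
    (χ : (H ≃ₐ[K] H) →* ℂ_[p]ˣ) (η : (F ≃ₐ[K] F) →* ℂ_[p]ˣ), Function.Injective χ →
    (∃ g : F ≃ₐ[K] F, (∀ x : F, (x : AlgebraicClosure K) ∈ L → g x = x) ∧ η g ≠ 1) →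
    (∀ g : AlgebraicClosure K ≃ₐ[K] AlgebraicClosure K, χ (AlgEquiv.restrictNormalHom H g) =
      χ₀ (AlgEquiv.restrictNormalHom M g) * η (AlgEquiv.restrictNormalHom F g)) →
  InjectiveOn (finrank K H) χ unitsHom (logSigma ιinf ιp S Lg)

/-- **Z_CO0** (the core, `χ₀ = 1`; compare `W_CO0`, proved in `Pool/Agent/Helper56/PW/WCO0.lean`).

PROOF (from `Z_P10`). That of `W_CO0`, with `Z_P10` in the place of `W_P10`; no `TypT`. -/
def Z_CO0 : Prop :=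
  ∀ (p : ℕ) [Fact p.Prime] (K : Type) [Field K] [NumberField K]
    (ιinf : AlgebraicClosure K →+* ℂ) (ιp : AlgebraicClosure K →+* ℂ_[p]) (Lg : IwasawaLog p ℂ_[p])
    (S : Set (K →+* ℂ)), PlaceClosed (TSet ιinf ιp S) →
  ∀ (n : ℕ) (L F M₂ : IntermediateField K (AlgebraicClosure K)) [NumberField L] [NumberField F]
    [NumberField M₂] [IsGalois K L] [IsGalois K F] [Algebra L M₂],
    (∀ x : L, ((algebraMap L M₂ x : M₂) : AlgebraicClosure K) = x) →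
    L ≤ F → finrank K L = p ^ n → finrank K F = p ^ (n + 1) →
  ∀ (ε a : M₂), Cyc p L M₂ ε → OmType p L ε a → a ≠ 0 →
  ∀ s : AlgebraicClosure K, s ^ p = (a : AlgebraicClosure K) → s ∉ M₂ →
    (∀ g : AlgebraicClosure K ≃ₐ[K] AlgebraicClosure K, (∀ y ∈ F, g y = y) →
      (∀ y ∈ M₂, g y = y) → g s = s) →
    (∀ x : (L)ˣ, (∀ W : HeightOneSpectrum (𝓞 M₂), LocW p W a (algebraMap L M₂ (x : L))) →
      (∀ τ ∈ (above (TSet ιinf ιp S) : Set (M₂ →+* ℂ_[p])), SigT p τ ε a (algebraMap L M₂ (x : L))) →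
      Pw p x) →
  ∀ (H : IntermediateField K (AlgebraicClosure K)) [FiniteDimensional K H] [Normal K H]
    (χ : (H ≃ₐ[K] H) →* ℂ_[p]ˣ) (η : (F ≃ₐ[K] F) →* ℂ_[p]ˣ), Function.Injective χ →
    (∃ g : F ≃ₐ[K] F, (∀ x : F, (x : AlgebraicClosure K) ∈ L → g x = x) ∧ η g ≠ 1) →
    (∀ g : AlgebraicClosure K ≃ₐ[K] AlgebraicClosure K, χ (AlgEquiv.restrictNormalHom H g) =
      η (AlgEquiv.restrictNormalHom F g)) →
  InjectiveOn (finrank K H) χ unitsHom (logSigma ιinf ιp S Lg)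

/-- **Z_GL1** (a trivial twisted Selmer group implies the `Σ`-Leopoldt statement, `χ₀ ≠ 1`; compare `W_GL1`, proved in
`Pool/Agent/Helper74/PW/WGL1.lean`, for `E = ⊥`).

PROOF (from `Z_TRV`, `Z_CO1`; `B_STB`, `B_TOR`, `L_SQR` are theorems). That of `W_GL1` with `E = ⊥`, `ψ = 1`: `L = L₀ = J`, `F₁` the field of `ψ₁`, `F = J ⊔ F₁`, `M' = M ⊔ J`, `M₂' = M₂`, without the conditions on the primes above `p` and on the places of `T`, and without the passage to `M₂'` (`W_PRM`, `CondV`). The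
automorphisms `f` in `Z_TRV`: `g ∈ Gal(M'/M)` extends to `Gal(M₂/M₁)` (`M₂ = M₁ ⊔ M'`, `M₁ ∩ M' = M` by degrees, as in the proof of `W_GL1`); `f ε = ε` because `ε ∈ M₁`, and `f α = α c^p` by `OmType`. -/
def Z_GL1 : Prop :=
  ∀ (p : ℕ) [Fact p.Prime] (K : Type) [Field K] [NumberField K]
    (ιinf : AlgebraicClosure K →+* ℂ) (ιp : AlgebraicClosure K →+* ℂ_[p]) (Lg : IwasawaLog p ℂ_[p])
    (S : Set (K →+* ℂ)), PlaceClosed (TSet ιinf ιp S) →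
  ∀ (M M₁ J M₂ : IntermediateField K (AlgebraicClosure K)) [NumberField M] [NumberField M₁]
    [NumberField J] [NumberField M₂] [IsGalois K M] [IsGalois K M₁] [IsGalois K J] [Algebra M M₂],
    (∀ x : M, ((algebraMap M M₂ x : M₂) : AlgebraicClosure K) = x) → M ≤ M₁ → M₂ = M₁ ⊔ J →
    (finrank K M₁).Coprime p → (∃ l : ℕ, finrank K J = p ^ l) →
  ∀ (χM : (M ≃ₐ[K] M) →* ℂ_[p]ˣ), Function.Injective χM →
  ∀ (δ : M ≃ₐ[K] M) (Φ : ℤ_[p][X]) (P : (ZMod p)[X]), orderOf δ = finrank K M →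
    PhiData p (finrank K M) ((χM δ : ℂ_[p]ˣ) : ℂ_[p]) Φ P → TorOK P δ →
  ∀ (χ₀ ψ₁ : Chr K (AlgebraicClosure K) ℂ_[p]),
    (∀ g, χ₀ g = χM (AlgEquiv.restrictNormalHom M g)) →
    (∃ l : ℕ, ψ₁ ^ p ^ l = 1) → (∀ g, (∀ x ∈ J, g x = x) → ψ₁ g ^ p = 1) →
    (∃ g : AlgebraicClosure K ≃ₐ[K] AlgebraicClosure K, (∀ x ∈ J, g x = x) ∧ ψ₁ g ≠ 1) →
  ∀ (ε : M₂) (α : (M₂)ˣ), IsPrimitiveRoot ε p → (ε : AlgebraicClosure K) ∈ M₁ →
    OmType p K ε (α : M₂) → ¬ Pw p α →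
    (∀ s : AlgebraicClosure K, s ^ p = ((α : M₂) : AlgebraicClosure K) →
      ∀ g : AlgebraicClosure K ≃ₐ[K] AlgebraicClosure K, (∀ x ∈ M₂, g x = x) → ψ₁ g = 1 →
        g s = s) →
    (∀ x : (M)ˣ, SelX (above (TSet ιinf ιp S) : Set (M₂ →+* ℂ_[p])) P δ ε (α : M₂) x → Pw p x) →
  LeopoldtFor ιinf ιp Lg S (χ₀ * ψ₁)

/-- **Z_GL0** (as `Z_GL1`, for `χ₀ = 1`; compare `W_GL0`, proved in `Pool/Agent/Helper24/PW/WGL0.lean`, for `E = ⊥`).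

PROOF (from `Z_TRV`, `Z_CO0`). That of `W_GL0`, with the changes of `Z_GL1`. -/
def Z_GL0 : Prop :=
  ∀ (p : ℕ) [Fact p.Prime] (K : Type) [Field K] [NumberField K]
    (ιinf : AlgebraicClosure K →+* ℂ) (ιp : AlgebraicClosure K →+* ℂ_[p]) (Lg : IwasawaLog p ℂ_[p])
    (S : Set (K →+* ℂ)), PlaceClosed (TSet ιinf ιp S) → (¬ ∃ ξ : K, IsPrimitiveRoot ξ p) →
  ∀ (M₁ J M₂ : IntermediateField K (AlgebraicClosure K)) [NumberField M₁]
    [NumberField J] [NumberField M₂] [IsGalois K M₁] [IsGalois K J],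
    M₂ = M₁ ⊔ J → (finrank K M₁).Coprime p → (∃ l : ℕ, finrank K J = p ^ l) →
  ∀ (ψ₁ : Chr K (AlgebraicClosure K) ℂ_[p]),
    (∃ l : ℕ, ψ₁ ^ p ^ l = 1) → (∀ g, (∀ x ∈ J, g x = x) → ψ₁ g ^ p = 1) →
    (∃ g : AlgebraicClosure K ≃ₐ[K] AlgebraicClosure K, (∀ x ∈ J, g x = x) ∧ ψ₁ g ≠ 1) →
  ∀ (ε : M₂) (α : (M₂)ˣ), IsPrimitiveRoot ε p → (ε : AlgebraicClosure K) ∈ M₁ →
    (∀ g : M₁ ≃ₐ[K] M₁, (∀ x : M₁, (x : AlgebraicClosure K) = ε → g x = x) → g = 1) →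
    OmType p K ε (α : M₂) → ¬ Pw p α →
    (∀ s : AlgebraicClosure K, s ^ p = ((α : M₂) : AlgebraicClosure K) →
      ∀ g : AlgebraicClosure K ≃ₐ[K] AlgebraicClosure K, (∀ x ∈ M₂, g x = x) → ψ₁ g = 1 →
        g s = s) →
    (∀ x : Kˣ, SelX (above (TSet ιinf ιp S) : Set (M₂ →+* ℂ_[p])) (X - 1 : (ZMod p)[X])
      (1 : K ≃ₐ[K] K) ε (α : M₂) x → Pw p x) →
  LeopoldtFor ιinf ιp Lg S ψ₁

end Pool.Agent.Helper38.WY
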