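import Pool.Agent.Helper38.WY.AsmY
import Pool.Agent.Helper89.WY.ZGL0

/-!
# Project WY: the density theorem of step 1, without hypotheses
-/

set_option autoImplicit false

namespace Pool.Agent.Helper38.WY

theorem a_zco0 : Z_CO0 := Pool.Agent.Helper55.WY.z_co0 a_zp10

theorem a_zgl0 : Z_GL0 := Pool.Agent.Helper89.WY.z_gl0 a_ztrv a_zco0

/-- The density theorem of step 1. -/
theorem a_den1' : Y_DEN := a_den1 a_zgl0

end Pool.Agent.Helper38.WY
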