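import Pool.Agent.Helper42.PW.Asm1
import Pool.Agent.Helper76.PB.Asm
import Pool.Agent.Helper64.WY.FCNT
import Pool.Agent.Helper31.WY.FFIK
import Pool.Agent.Helper82.WY.FFI
import Pool.Agent.Helper32.WY.FLCP
import Pool.Agent.Helper56.WY.FLIN
import Pool.Agent.Helper53.WY.FLIF
import Pool.Agent.Helper16.WY.FLINE
import Pool.Agent.Helper30.WY.YCYC
import Pool.Agent.Helper14.WY.YLOC
import Pool.Agent.Helper94.WY.YLC0
import Pool.Agent.Helper74.WY.YFRE
import Pool.Agent.Helper96.WY.YSGB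
import Pool.Agent.Helper8.WY.YKEX
import Pool.Agent.Helper35.WY.YLNF
import Pool.Agent.Helper91.WY.YSIT
import Pool.Agent.Helper89.WY.YLIN
import Pool.Agent.Helper13.WY.YUPB
import Pool.Agent.Helper86.WY.YLFT
import Pool.Agent.Helper81.WY.YZET
import Pool.Agent.Helper19.WY.YTOR
import Pool.Agent.Helper69.WY.YABS
import Pool.Agent.Helper35.WY.YSEL

/-!
# Project WY: the proved statements, without hypotheses (parts 1-3)
-/

set_option autoImplicit false

namespace Pool.Agent.Helper38.WY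

open Pool.Agent.Helper42.PW Pool.Agent.Helper76.PB

theorem a_ffi : F_FI :=
  Pool.Agent.Helper82.WY.f_fi Pool.Agent.Helper32.WY.f_lcp Pool.Agent.Helper50.PB.x_hq
    Pool.Agent.Helper83.PB.x_rks Pool.Agent.Helper16.PB.x_h90 Pool.Agent.Helper32.PB.x_lcf
    Pool.Agent.Helper27.PB.x_spc

theorem a_ffik : F_FIK := Pool.Agent.Helper31.WY.f_fik a_ffi

theorem a_fcnt : F_CNT :=
  Pool.Agent.Helper64.WY.f_cnt a_ffik (a_db Pool.Agent.Helper2.PB.x_dk) a_klb
    Pool.Agent.Helper33.PB.x_lix a_unl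

theorem a_flin : F_LIN :=
  Pool.Agent.Helper56.WY.f_lin a_fcnt (a_db Pool.Agent.Helper2.PB.x_dk) a_klb

theorem a_flif : F_LIF := Pool.Agent.Helper53.WY.f_lif a_flin Pool.Agent.Helper86.PB.x_inj

theorem a_fline : F_LINE :=
  Pool.Agent.Helper16.WY.f_line a_flif (a_dn Pool.Agent.Helper2.PB.x_dk) a_ffi

theorem a_ycyc : Y_CYC := Pool.Agent.Helper30.WY.y_cyc

theorem a_yloc : Y_LOC :=
  Pool.Agent.Helper14.WY.y_loc a_ycyc Pool.Agent.Helper12.PW.l_kex a_idx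
    Pool.Agent.Helper94.PW.n_evl a_alg

theorem a_ylc0 : Y_LC0 :=
  Pool.Agent.Helper94.WY.y_lc0 Pool.Agent.Helper70.PW.l_prm Pool.Agent.Helper53.PW.l_clo
    Pool.Agent.Helper27.PW.l_den Pool.Agent.Helper14.PW.l_rt Pool.Agent.Helper15.PW.l_iso a_yloc
    a_alg

theorem a_ylin : Y_LIN :=
  Pool.Agent.Helper89.WY.y_lin Pool.Agent.Helper35.WY.y_lnf Pool.Agent.Helper53.PW.l_clo
    Pool.Agent.Helper27.PW.l_den Pool.Agent.Helper15.PW.l_iso

theorem a_ytor : Y_TOR :=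
  Pool.Agent.Helper19.WY.y_tor Pool.Agent.Helper86.WY.y_lft Pool.Agent.Helper81.WY.y_zet

theorem a_yupb (h : Y_PWA) : Y_UPB :=
  Pool.Agent.Helper13.WY.y_upb a_ylin Pool.Agent.Helper96.WY.y_sgb h

theorem a_ysel (h : Y_PWA) : Y_SEL := Pool.Agent.Helper35.WY.y_sel h

end Pool.Agent.Helper38.WY
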