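import Pool.Agent.Helper38.WY.AsmL
import Pool.Agent.Helper13.WY.ZLIM
import Pool.Agent.Helper62.WY.ZHIL
import Pool.Agent.Helper35.WY.ZP1
import Pool.Agent.Helper30.WY.ZP10
import Pool.Agent.Helper41.WY.ZTRV
import Pool.Agent.Helper69.WY.ZCO1
import Pool.Agent.Helper55.WY.ZCO0
import Pool.Agent.Helper93.WY.ZGL1
import Pool.Agent.Helper86.WY.OLA
import Pool.Agent.Helper39.WY.OTRI
import Pool.Agent.Helper99.WY.OP1
import Pool.Agent.Helper96.WY.ODSC
import Pool.Agent.Helper82.WY.OCO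
import Pool.Agent.Helper74.WY.OGL
import Pool.Agent.Helper8.WY.OGL0

/-!
# Project WY: the proved statements, without hypotheses (parts 4 and 6)
-/

set_option autoImplicit false

namespace Pool.Agent.Helper38.WY

open Pool.Agent.Helper42.PW

theorem a_zhil : Z_HIL :=
  Pool.Agent.Helper62.WY.z_hil Pool.Agent.Helper13.WY.z_lim (Pool.Agent.Helper58.PW.w_rm1
    Pool.Agent.Helper60.PW.n_hen)
    Pool.Agent.Helper94.PW.n_evl a_alg

theorem a_zp1 : Z_P1 := Pool.Agent.Helper35.WY.z_p1 a_zhil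

theorem a_zp10 : Z_P10 := Pool.Agent.Helper30.WY.z_p10 a_zhil

theorem a_ztrv : Z_TRV := Pool.Agent.Helper41.WY.z_trv

theorem a_zco1 : Z_CO1 := Pool.Agent.Helper69.WY.z_co1 a_zp1

theorem a_zgl1 : Z_GL1 := Pool.Agent.Helper93.WY.z_gl1 a_ztrv a_zco1

theorem a_op1 : O_P1 := Pool.Agent.Helper99.WY.o_p1 Pool.Agent.Helper86.WY.o_la a_zhil

theorem a_odsc : O_DSC := Pool.Agent.Helper96.WY.o_dsc Pool.Agent.Helper39.WY.o_tri

theorem a_oco : O_CO := Pool.Agent.Helper82.WY.o_co a_op1 a_odsc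

theorem a_ogl : O_GL := Pool.Agent.Helper74.WY.o_gl a_oco

theorem a_ogl0 : O_GL0 := Pool.Agent.Helper8.WY.o_gl0 a_ogl

end Pool.Agent.Helper38.WY
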