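import Pool.Agent.Helper42.PW.Defs3
import Pool.Agent.Helper42.PW.Goals2

/-!
# Project WY (MP_fc6b1e_nt, density theorem for all base characters): definitions

No condition above `p` on the base character and on the twists. The local condition at the places of `T` is
`SigT`: `x` is the norm of an element of the completion of `H = M₂(α^(1/p))` for `τ` whose conjugates differ by roots
of unity. There are no completions: the closure of the image of `M₂` in `ℂ_p` is used.
-/

set_option autoImplicit false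

namespace Pool.Agent.Helper38.WY

open NumberField Polynomial Module IsDedekindDomain
open Pool.Agent.Helper51.RP Pool.Agent.Helper42.RD Pool.Agent.Helper42.PP Pool.Agent.Helper42.PP1
open Pool.Agent.Helper42.PB Pool.Agent.Helper42.PW Pool.Agent.Helper11.PP
open Pool.Agent.Helper51.SigLeo (IwasawaLog)

/-- The conjugate number `i` of `∑_{j < p} z_j s^j`, where `s ↦ β`. -/
def cjs (p : ℕ) {k : Type} [CommRing k] (ε β : k) (z : ℕ → k) (i : ℕ) : k :=
  ∑ j ∈ Finset.range p, z j * (ε ^ i * β) ^ j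

section loc

variable (p : ℕ) [Fact p.Prime] {F : Type} [Field F]

/-- `x` is the norm of an element of the completion of `F(α^(1/p))` for `τ`, the conjugates of which are equal
up to roots of unity. -/
def SigT (τ : F →+* ℂ_[p]) (ε α x : F) : Prop :=
  ∃ (β : ℂ_[p]) (z : ℕ → ℂ_[p]) (n : ℕ), β ^ p = τ α ∧ (∀ j, z j ∈ closure (Set.range τ)) ∧
    0 < n ∧ ∏ i ∈ Finset.range p, cjs p (τ ε) β z i = τ x ∧
    ∀ i, cjs p (τ ε) β z i ^ n = cjs p (τ ε) β z 0 ^ n

/-- `x` is a `p`-th power in the completion of `F` for `τ`. -/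
def PwT (τ : F →+* ℂ_[p]) (x : F) : Prop := ∃ t ∈ closure (Set.range τ), t ^ p = τ x

/-- `σ` and `σ'` induce the same absolute value. -/
def SamePl (σ σ' : F →+* ℂ_[p]) : Prop := ∀ x : F, ‖σ x‖ = ‖σ' x‖

end loc

/-- The twisted Selmer group of `α`. -/
structure SelX {p : ℕ} [Fact p.Prime] {K M : Type} [Field K] [Field M] [Algebra K M] {F : Type}
    [Field F] [NumberField F] [Algebra M F] (T : Set (F →+* ℂ_[p])) (P : (ZMod p)[X])
    (δ : M ≃ₐ[K] M) (ε α : F) (x : Mˣ) : Prop where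
  pol : Pw p (pol P δ x)
  loc : ∀ W : HeightOneSpectrum (𝓞 F), LocW p W α (algebraMap M F x)
  sig : ∀ τ ∈ T, SigT p τ ε α (algebraMap M F (x : M))

/-- `n` independent `P`-functionals of local nature at `S` which express the local conditions of `a₀ aτ` at
the primes of `M₂` above `S` and at the places of `T`. -/
structure TauX {p : ℕ} [Fact p.Prime] {K M K₁ M₁ : Type} [Field K]
    [NumberField K] [Field M] [NumberField M] [Field K₁] [NumberField K₁] [Field M₁]
    [NumberField M₁] [Algebra K M] [Algebra K K₁] [Algebra K M₁] [Algebra M M₁] [Algebra K₁ M₁]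
    {ε : K₁} {δ : M ≃ₐ[K] M} {P : (ZMod p)[X]} (n : ℕ) (B : Base p K M K₁ M₁ ε δ P)
    {M₂ : Type} [Field M₂] [NumberField M₂] [Algebra K M₂] [Algebra M M₂] [Algebra K₁ M₂]
    (a₀ : M₂ˣ) (T : Set (K →+* ℂ_[p])) (aτ : K₁ˣ) extends TauF n B where
  hS : ∀ j x, Pw p (pol P δ x) → (∀ W ∈ up M₂ B.S,
    LocW p W ((a₀ : M₂) * algebraMap K₁ M₂ (aτ : K₁)) (algebraMap M M₂ (x : M))) →
    (∀ τ ∈ (above T : Set (M₂ →+* ℂ_[p])), SigT p τ (algebraMap K₁ M₂ ε)
      ((a₀ : M₂) * algebraMap K₁ M₂ (aτ : K₁)) (algebraMap M M₂ (x : M))) → h j x = 0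

/-- The classes whose Selmer group `SelX` (for the Kummer generator `a₀ a`, `a` of the class `c`) is not
trivial. -/
def BdX {p : ℕ} [Fact p.Prime] {K M K₁ M₂ : Type} [Field K]
    [Field M] [Field K₁] [Field M₂] [NumberField M₂] [Algebra K M] [Algebra K M₂] [Algebra M M₂]
    [Algebra K₁ M₂] (T : Set (K →+* ℂ_[p])) (P : (ZMod p)[X]) (δ : M ≃ₐ[K] M) (ε : K₁)
    (a₀ : M₂ˣ) : Set (ClP p K₁) :=
  {c | ∃ (y : Mˣ) (a : K₁ˣ), clp p a = c ∧
    SelX (above T : Set (M₂ →+* ℂ_[p])) P δ (algebraMap K₁ M₂ ε)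
      ((a₀ : M₂) * algebraMap K₁ M₂ (a : K₁)) y ∧ ¬ Pw p y}

end Pool.Agent.Helper38.WY
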