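import Pool.Agent.Helper38.WY.Defs
import Pool.Agent.Helper42.PW.Goals2

/-!
# Project WY, part 1: the primes above `p` at which `J` does not split

Every statement is a `def ... : Prop` with its complete proof in the docstring.
-/

set_option autoImplicit false

namespace Pool.Agent.Helper38.WY

open NumberField Polynomial Module IsDedekindDomain
open Pool.Agent.Helper51.RP Pool.Agent.Helper42.RD Pool.Agent.Helper42.PP Pool.Agent.Helper42.PP1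
open Pool.Agent.Helper42.PB Pool.Agent.Helper42.PW

/-- **Y_CYC** (in a cyclic extension of degree `p^(s+1)` an element of the base field which is a norm from the top
layer, of degree `p`, is a norm from the bottom layer).

PROOF. Let `τ = σ^(p^s)`, so `x = ∏_(i<p) τ^i(n)`, `n ≠ 0`. Put `P = ∏_(i<p) σ^i(n)`. Then
`∏_(j<p^s) (σ^p)^j(P) = ∏_(l<p^(s+1)) σ^l(n) = ∏_(j<p^s) σ^j(∏_(i<p) τ^i(n)) = ∏_(j<p^s) σ^j(x) = x^(p^s)`. So `a = P/x`
satisfies `∏_(j<p^s) (σ^p)^j(a) = 1`, and `σ^p` has order `p^s`. *Hilbert 90:* there is `r ≠ 0` with `a = σ^p(r)/r`. (Let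
`σ' = σ^p`, `a_i = ∏_(j<i) σ'^j(a)`, `a_(p^s) = 1`; the automorphisms `σ'^i`, `i < p^s`, are distinct, so by the linear
independence of characters (`linearIndependent_monoidHom`) there is `θ ∈ H` with `q = ∑_(i<p^s) a_i σ'^i(θ) ≠ 0`;
`a σ'(q) = q`, so `a = σ'(r)/r` for `r = q⁻¹`.) Let `w = n r/σ(r)`. `∏_(i<p) σ^i(w) = P r/σ^p(r) = P/a = x`. So
`1 = σ(x)/x = σ^p(w)/w` (telescoping: `σ(∏_(i<p) σ^i w) = (∏_(i<p) σ^i w) σ^p(w)/w`). -/
def Y_CYC : Prop :=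
  ∀ (R H : Type) [Field R] [Field H] [Algebra R H] (σ : H ≃ₐ[R] H) (p s : ℕ), p.Prime →
    orderOf σ = p ^ (s + 1) →
  ∀ x n : H, x ≠ 0 → σ x = x → ∏ i ∈ Finset.range p, (σ ^ (p ^ s * i)) n = x →
  ∃ w : H, (σ ^ p) w = w ∧ ∏ i ∈ Finset.range p, (σ ^ i) w = x

/-- **Y_LOC** (an element of the base field which is not a norm; compare `L_LOC`, proved in
`Helper42/PW/Goals2.lean`, search for the theorem `l_loc`). `𝓕` is a finite extension of `ℚ_p`, `ε ∈ 𝓕`, `α` is not a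
`p`-th power in `𝓕`, `g` an automorphism of `𝓕` of order dividing `d`, prime to `p`, for which `α` has the
same type as `ε`, `σ` an automorphism of order `p^t`, trivial on `ε`, such that its extensions to `𝓕(α^(1/p))` have order
`p^(t+1)` if `t > 0`. There is `u ≠ 0` in `𝓕`, fixed by `g` and `σ`, which is not a norm from `𝓕(α^(1/p))`.

PROOF (from `L_KEX`, `L_IDX`, `N_EVL`, `N_ALG`, `Y_CYC`). `β ∉ 𝓕`. Let `ℋ`, `b`, `γ`, `g'` be as in `L_KEX` for `g`, and let `σ'` be the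
extension of `σ` given by `L_KEX` for `σ` (with `n = 1`, `c = e`), for the same `ℋ`: the construction of `ℋ = 𝓕(β)`, `b = β`, `γ` does
not depend on `g` (`γ` is determined by its values on `𝓕` and on `b`; if you use `L_KEX` twice, `ℋ = 𝓕(β)` in both cases, because every
element is `∑ z_j b^j`). `γ^p = 1`, `γ ≠ 1`; `γ` commutes with `g'` and with `σ'`. As in `L_LOC` let `p e₀ ≡ 1 mod d` and
`g₁ = g'^(p e₀)`: `g'^d` is trivial on `𝓕` and `(g'^d b)^p = b^p`, so `g'^d = γ^i` for some `i`; `g₁^d = 1`, `g₁ = g` on `𝓕`. *`g₁`, `σ'`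
commute*: `g₁ σ' g₁⁻¹ σ'⁻¹` is trivial on `𝓕`, so it is `γ^i` for some `i` (it sends `b` to a `p`-th root of `α`, i.e. to `ε^i b`), and
`g₁^d σ' g₁^(-d) = γ^(d i) σ'`, so `γ^(d i) = 1`, `p ∣ i`. *`σ'^(p^t)`* is trivial on `𝓕` and sends `b` to `b ∏_(i<p^t) σ^i(e)`. So, if
`t > 0`, `σ'^(p^t) = γ^j` with `p ∤ j` (the product `ζ` satisfies `ζ^p = ∏ σ^i(σ α/α) = 1` and `ζ ≠ 1`). Let `Σ = σ'` if `t > 0` and `Σ = γ` if
`t = 0` (then `σ = 1`). In both cases `Σ` has order `p^(t+1)`, `Σ^(p^t) = γ^j`, `p ∤ j`, and `Σ` commutes with `g₁`. Let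
`E = {y ∈ ℋ : g₁ y = y}` (`IntermediateField.fixedField (Subgroup.zpowers g₁)`), stable under `Σ`. `Σ|_E` has order `p^(t+1)`: if `Σ^i` is
trivial on `E` then it is in `⟨g₁⟩` (Artin: `IntermediateField.fixingSubgroup_fixedField`), of order prime to `p`, so `Σ^i = 1`. Let
`B = {y ∈ E : Σ^p y = y}`, a finite extension of `ℚ_p`, stable under `Σ`; `Σ|_B` has order `p` (its `p`-th power is `1`; if it is `1` then
`Σ|_E` is in the fixing group of the fixed field of `⟨Σ|_E^p⟩`, which is `⟨Σ|_E^p⟩`, and `Σ|_E` would have order prime to `p`). `L_IDX` for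
`B` gives `u ∈ B`, `u ≠ 0`, `Σ u = u`, which is not a `∏_(i<p) Σ^i(z)`, `z ∈ B`. `γ u = u` (a power of `Σ`), so `u ∈ 𝓕` (as in `L_LOC`:
`u = ∑_j z_j b^j`, `p u = ∑_(i<p) γ^i(u) = p z_0`); `g u = g₁ u = u`; `σ u = u` (`σ = 1` if `t = 0`). Suppose `u = nf p α z`,
`z : ℕ → 𝓕`. By `N_ALG` (1) and `N_EVL`, `u = ∏_(i<p) γ^i(y)`, `y = ∑_j z_j b^j`. Let `y' = ∏_(j<d) g₁^j(y) ∈ E`:
`∏_(i<p) γ^i(y') = u^d`. Let `r d + s p = 1` (`r, s ∈ ℤ`), `n = y'^r u^s ∈ E`: `∏_(i<p) γ^i(n) = u`. As `Σ^(p^t) = γ^j`, `p ∤ j`, the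
`Σ^(p^t i)`, `i < p`, are the `γ^i`, `i < p`, in another order, and `∏_(i<p) Σ^(p^t i)(n) = u`. `Y_CYC` for `E`, `Σ|_E` gives `w ∈ B` with
`∏_(i<p) Σ^i(w) = u`, a contradiction. -/
def Y_LOC : Prop :=
  ∀ (p : ℕ) [Fact p.Prime] (k : Type) [NormedField k] [NormedAlgebra ℚ_[p] k]
    [IsUltrametricDist k] (𝓕 : IntermediateField ℚ_[p] k) [FiniteDimensional ℚ_[p] 𝓕]
    (ε α : 𝓕) (β : k), IsPrimitiveRoot ε p → α ≠ 0 → β ^ p = α → (¬ ∃ b : 𝓕, b ^ p = α) →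
  ∀ (g σ : 𝓕 ≃ₐ[ℚ_[p]] 𝓕) (n d t : ℕ) (c e : 𝓕), g ε = ε ^ n → g α = α ^ n * c ^ p →
    0 < d → d.Coprime p → g ^ d = 1 → g * σ = σ * g → σ ε = ε → σ α = α * e ^ p →
    orderOf σ = p ^ t → (0 < t → ∏ i ∈ Finset.range (p ^ t), (σ ^ i) e ≠ 1) →
  ∃ u : 𝓕, u ≠ 0 ∧ g u = u ∧ σ u = u ∧ ∀ z : ℕ → 𝓕, nf p α z ≠ u

/-- **Y_LC0** (local condition above `p`; compare `L_LC0`, of which the proof is to be adapted). `F/M` is an
abelian extension of number fields, `W ∣ p` a prime of `F` with decomposition group `D`, the elements of `D` which are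
trivial on `ε` are the powers of `σ ∈ D`, of order `p^t`, and the extensions of `σ` to `F(α^(1/p))` have order
`p^(t+1)` if `t > 0`; `α` has the type of `ε` for the elements of `D`. If `α` is not locally a `p`-th power then
some element of `M` is not locally a norm from `F(α^(1/p))`.

PROOF (from `L_PRM`, `L_CLO`, `L_DEN`, `L_RT`, `L_ISO`, `Y_LOC`, `N_ALG`). As `L_LC0` (docstring in `Helper42/PW/Goals2.lean`), with the
following changes. (2) `D/⟨σ⟩ → (ZMod p)ˣ`, `g ↦ n(g)`, `g ε = ε^(n(g))`, is injective; so it is cyclic of order `d` prime to `p`. Let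
`h ∈ D` be a preimage of a generator; `h^d ∈ ⟨σ⟩`, so `h^(d p^t) = 1`. Let `e₀` with `p^t e₀ ≡ 1 mod d` and `g₀ = h^(p^t e₀)`: `g₀^d = 1`,
`n(g₀) = n(h)` as `n(h)^d = 1` in `(ZMod p)ˣ`. So `D` is generated by `g₀` and `σ`: every `g ∈ D` is `g₀^i σ^j`. `ĝ₀`, `σ̂` are the extensions to
`𝓕` (`L_CLO`); they commute, `ĝ₀^d = 1`, `σ̂` has order `p^t` (density of `τ(F)` in `𝓕`). `σ α = α^n c'^p` with `ε^n = ε`, `n = 1 + p l`: with
`e = α^l c'`, `σ α = α e^p` (if `n = 0` then `ε = 1`, impossible; so `n ≥ 1`); `∏_(i<p^t) σ̂^i(τ e) = τ(∏ σ^i e) ≠ 1` if `t > 0`. (5) `Y_LOC`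
for `𝓕`, `τ ε`, `τ α`, `β`, `ĝ₀`, `σ̂` gives `u` fixed by `ĝ₀`, `σ̂`, hence by the extensions of all the `g ∈ D`. (6) For `g ∈ D`:
`τ(g y) - τ y = ĝ(τ y - u) + (u - τ y)`. The rest is the same. -/
def Y_LC0 : Prop :=
  ∀ (p : ℕ) [Fact p.Prime] (k : Type) [NormedField k] [NormedAlgebra ℚ_[p] k]
    [IsUltrametricDist k], Nonempty (AlgebraicClosure ℚ →+* k) →
  ∀ (M F : Type) [Field M] [NumberField M] [Field F] [NumberField F] [Algebra M F] [IsGalois M F]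
    (ε α : F), IsPrimitiveRoot ε p → α ≠ 0 →
  ∀ W : HeightOneSpectrum (𝓞 F), W.valuation F (p : F) < 1 →
    (∀ g h : F ≃ₐ[M] F, g * h = h * g) →
    (∀ g : F ≃ₐ[M] F, (∀ y : F, W.valuation F (g y) = W.valuation F y) →
      ∃ (n : ℕ) (c : F), g ε = ε ^ n ∧ g α = α ^ n * c ^ p) →
  ∀ (σ : F ≃ₐ[M] F) (t : ℕ), orderOf σ = p ^ t → σ ε = ε →
    (∀ y : F, W.valuation F (σ y) = W.valuation F y) →
    (∀ g : F ≃ₐ[M] F, (∀ y : F, W.valuation F (g y) = W.valuation F y) → g ε = ε →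
      ∃ i : ℕ, g = σ ^ i) →
    (0 < t → ∀ c : F, σ α = α * c ^ p → ∏ i ∈ Finset.range (p ^ t), (σ ^ i) c ≠ 1) →
    ¬ PwAt p W α → ∃ x : Mˣ, ¬ NmAt p W α (algebraMap M F (x : M))

/-- **Y_FRE** (if `α` is locally a `p`-th power then the extensions of `σ` to `F(α^(1/p))` have the same order as
`σ`).

PROOF. Let `V = W.valuation F`, `λ = V(ε - 1) < 1`, `λ^(p-1) = V(p)` (`∏_(0<i<p) (1 - ε^i) = p` and `V(1 - ε^i) = V(1 - ε)`
for `0 < i < p`), so `λ ≥ λ^(p-1) = V(p)`. Let `Cl p W (α y^p)`, `y ≠ 0`, and `d = c σ(y)/y`: `d^p = σ(α y^p)/(α y^p)`, so `V(d^p - 1) ≤ V(p)³`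
(`V` is invariant under `σ`). `d^p - 1 = ∏_(i<p) (d - ε^i)`; if all the factors had `V ≥ λ` then
`V(p)³ ≥ λ^p = λ V(p) ≥ V(p)²`, which is false since `V(p) < 1`. So `V(d - ε^i) < λ` for some `i`. As `σ` fixes `ε`,
`V(σ^j(d) - ε^i) < λ` for all `j`, all these elements have valuation `≤ 1`, so `V(∏_(j<p^t) σ^j(d) - ε^(i p^t)) < λ`, and `ε^(p^t) = 1` (`t > 0`).
`∏_j σ^j(d) = ∏_j σ^j(c) · σ^(p^t)(y)/y = ∏_j σ^j(c) =: ζ` and `ζ^p = ∏_j σ^j(σ(α)/α) = 1`. So `ζ = ε^l` with `V(ε^l - 1) < λ`, hence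
`ζ = 1`. -/
def Y_FRE : Prop :=
  ∀ (p : ℕ) [Fact p.Prime] (F : Type) [Field F] [NumberField F] (ε α : F),
    IsPrimitiveRoot ε p → α ≠ 0 →
  ∀ W : HeightOneSpectrum (𝓞 F), W.valuation F (p : F) < 1 →
  ∀ (σ : F ≃+* F) (t : ℕ) (c : F), (∀ y : F, W.valuation F (σ y) = W.valuation F y) →
    σ ε = ε → orderOf σ = p ^ t → 0 < t → σ α = α * c ^ p → PwAt p W α →
  ∏ i ∈ Finset.range (p ^ t), (σ ^ i) c = 1

end Pool.Agent.Helper38.WY
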